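import Pool.Agent.U136.NWS.FinStm2
import Pool.Agent.Cov.PNT
import Pool.Agent.Cov.PrimesAP

/-! Project NWS (helper136): the primes relative to a periodic weight, from the prime number theorem in residue classes. -/

set_option autoImplicit false

open Finset Filter Topology

namespace Pool.Agent.U136.NWS

open Pool.Agent.Cov.PNT

/-- primes `≤ X` in the class of `a` -/
noncomputable def cap (M a X : ℕ) : ℕ := ((Icc 1 X).filter (fun p => p.Prime ∧ p % M = a % M)).card

lemma floor_nat (X : ℕ) : ⌊(X : ℝ)⌋₊ = X := Nat.floor_natCast X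

lemma gap_tendsto : Tendsto (fun X : ℕ => ((Nat.primeCounting X : ℝ) * Real.log X - Chebyshev.theta X) / X)
    atTop (𝓝 0) := by
  have h1 := pi_tendsto.comp (tendsto_natCast_atTop_atTop (R := ℝ))
  have h2 := theta_div_tendsto.comp (tendsto_natCast_atTop_atTop (R := ℝ))
  have h3 := h1.sub h2
  simp only [sub_self] at h3
  refine h3.congr fun X => ?_
  simp only [Function.comp, floor_nat]
  ring

lemma psi_theta_nat : Tendsto (fun X : ℕ => (Chebyshev.psi X - Chebyshev.theta X) / X) atTop (𝓝 0) :=
  Pool.Agent.Cov.psi_theta_tendsto.comp tendsto_natCast_atTop_atTop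

lemma cap_tendsto (M a : ℕ) (hM : 0 < M) (ha : a.Coprime M) :
    Tendsto (fun X : ℕ => Real.log X / X * (cap M a X : ℝ)) atTop (𝓝 (1 / (M.totient : ℝ))) := by
  have : NeZero M := ⟨hM.ne'⟩
  have hu : IsUnit ((a : ℕ) : ZMod M) := (ZMod.isUnit_iff_coprime a M).2 ha
  have hpsi := (pnt_residueClass hu).comp (tendsto_natCast_atTop_atTop (R := ℝ))
  simp only [Function.comp_def, floor_nat] at hpsi
  -- the weighted count
  have hcls : ∀ n : ℕ, ((n : ℕ) : ZMod M) = ((a : ℕ) : ZMod M) ↔ n % M = a % M := fun n =>
    ZMod.natCast_eq_natCast_iff' n a M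
  have hres : ∀ n : ℕ, ArithmeticFunction.vonMangoldt.residueClass ((a : ℕ) : ZMod M) n =
      if n % M = a % M then ArithmeticFunction.vonMangoldt n else 0 := by
    intro n
    unfold ArithmeticFunction.vonMangoldt.residueClass
    rw [Set.indicator_apply]
    simp only [Set.mem_ofPred_eq, hcls]
  set A : ℕ → ℝ := fun X => ∑ p ∈ (Icc 1 X).filter (fun p => p.Prime ∧ p % M = a % M), Real.log p with hA
  have hψ : ∀ X : ℕ, Chebyshev.psi X = ∑ n ∈ Icc 1 X, ArithmeticFunction.vonMangoldt n := by
    intro X
    unfold Chebyshev.psi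
    rw [floor_nat]
    rfl
  have hθ : ∀ X : ℕ, Chebyshev.theta X = ∑ p ∈ (Icc 1 X).filter Nat.Prime, Real.log p := by
    intro X
    unfold Chebyshev.theta
    rw [floor_nat]
    rfl
  have hπ : ∀ X : ℕ, (Nat.primeCounting X : ℝ) * Real.log X = ∑ p ∈ (Icc 1 X).filter Nat.Prime, Real.log X := by
    intro X
    rw [Finset.sum_const, nsmul_eq_mul]
    congr 2
    rw [Nat.primeCounting, Nat.primeCounting', Nat.count_eq_card_filter_range]
    congr 1
    ext p
    simp only [mem_filter, mem_range, mem_Icc]
    constructor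
    · rintro ⟨h, hp⟩
      exact ⟨⟨hp.one_lt.le, by omega⟩, hp⟩
    · rintro ⟨⟨_, h⟩, hp⟩
      exact ⟨by omega, hp⟩
  -- psi_a - A
  have h1 : ∀ X : ℕ, 0 ≤ ∑ k ∈ Icc 1 X, ArithmeticFunction.vonMangoldt.residueClass ((a : ℕ) : ZMod M) k - A X ∧
      ∑ k ∈ Icc 1 X, ArithmeticFunction.vonMangoldt.residueClass ((a : ℕ) : ZMod M) k - A X ≤
        Chebyshev.psi X - Chebyshev.theta X := by
    intro X
    have e1 : A X = ∑ k ∈ Icc 1 X, if k.Prime ∧ k % M = a % M then Real.log k else 0 := by
      simp only [hA]
      rw [Finset.sum_filter]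
    have e2 : Chebyshev.theta X = ∑ k ∈ Icc 1 X, if k.Prime then Real.log k else 0 := by
      rw [hθ, Finset.sum_filter]
    rw [e1, hψ, e2, ← Finset.sum_sub_distrib, ← Finset.sum_sub_distrib]
    constructor
    · refine Finset.sum_nonneg fun k _ => ?_
      rw [hres]
      by_cases hk : k % M = a % M
      · by_cases hp : k.Prime
        · simp [hk, hp, ArithmeticFunction.vonMangoldt_apply_prime hp]
        · simp [hk, hp, ArithmeticFunction.vonMangoldt_nonneg]
      · simp [hk]
    · refine Finset.sum_le_sum fun k _ => ?_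
      rw [hres]
      by_cases hk : k % M = a % M
      · by_cases hp : k.Prime
        · simp [hk, hp]
        · simp [hk, hp]
      · by_cases hp : k.Prime
        · simp [hk, hp, ArithmeticFunction.vonMangoldt_apply_prime hp]
        · simp [hk, hp, ArithmeticFunction.vonMangoldt_nonneg]
  have hAlim : Tendsto (fun X : ℕ => A X / X) atTop (𝓝 (1 / (M.totient : ℝ))) := by
    have h2 : Tendsto (fun X : ℕ => (∑ k ∈ Icc 1 X,
        ArithmeticFunction.vonMangoldt.residueClass ((a : ℕ) : ZMod M) k - A X) / X) atTop (𝓝 0) := by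
      refine squeeze_zero' ?_ ?_ psi_theta_nat
      · filter_upwards with X
        exact div_nonneg (h1 X).1 (Nat.cast_nonneg X)
      · filter_upwards with X
        exact div_le_div_of_nonneg_right (h1 X).2 (Nat.cast_nonneg X)
    have h3 := hpsi.sub h2
    rw [sub_zero] at h3
    rw [one_div]
    refine h3.congr fun X => ?_
    ring
  have h4 : ∀ X : ℕ, 1 ≤ X → 0 ≤ (cap M a X : ℝ) * Real.log X - A X ∧
      (cap M a X : ℝ) * Real.log X - A X ≤ (Nat.primeCounting X : ℝ) * Real.log X - Chebyshev.theta X := by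
    intro X hX
    have e1 : (cap M a X : ℝ) * Real.log X =
        ∑ p ∈ (Icc 1 X).filter (fun p => p.Prime ∧ p % M = a % M), Real.log X := by
      rw [Finset.sum_const, nsmul_eq_mul]; rfl
    simp only [hA]
    rw [e1, hπ, hθ, ← Finset.sum_sub_distrib, ← Finset.sum_sub_distrib]
    have hlog : ∀ p ∈ Icc 1 X, 0 ≤ Real.log X - Real.log p := by
      intro p hp
      rw [mem_Icc] at hp
      rw [sub_nonneg]
      exact Real.log_le_log (by exact_mod_cast hp.1) (by exact_mod_cast hp.2)
    constructor
    · exact Finset.sum_nonneg fun p hp => hlog p (mem_filter.1 hp).1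
    · refine Finset.sum_le_sum_of_subset_of_nonneg ?_ fun p hp _ => hlog p (mem_filter.1 hp).1
      intro p hp
      rw [mem_filter] at hp ⊢
      exact ⟨hp.1, hp.2.1⟩
  have h5 : Tendsto (fun X : ℕ => ((cap M a X : ℝ) * Real.log X - A X) / X) atTop (𝓝 0) := by
    refine squeeze_zero' ?_ ?_ gap_tendsto
    · filter_upwards [eventually_ge_atTop 1] with X hX
      exact div_nonneg (h4 X hX).1 (Nat.cast_nonneg X)
    · filter_upwards [eventually_ge_atTop 1] with X hX
      exact div_le_div_of_nonneg_right (h4 X hX).2 (Nat.cast_nonneg X)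
  have h6 := h5.add hAlim
  rw [zero_add] at h6
  refine h6.congr fun X => ?_
  ring

lemma log_div_tendsto : Tendsto (fun X : ℕ => Real.log X / X) atTop (𝓝 0) := by
  have h := Real.isLittleO_log_id_atTop.tendsto_div_nhds_zero
  exact h.comp (tendsto_natCast_atTop_atTop (R := ℝ))

lemma close_tendsto {f g : ℕ → ℝ} {K L : ℝ} (h : ∀ X, |f X - g X| ≤ K)
    (hg : Tendsto (fun X : ℕ => Real.log X / X * g X) atTop (𝓝 L)) :
    Tendsto (fun X : ℕ => Real.log X / X * f X) atTop (𝓝 L) := by
  have h1 : Tendsto (fun X : ℕ => Real.log X / X * (f X - g X)) atTop (𝓝 0) := by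
    have h2 : Tendsto (fun X : ℕ => Real.log X / X * K) atTop (𝓝 0) := by
      simpa using log_div_tendsto.mul_const K
    refine squeeze_zero_norm (fun X => ?_) h2
    have h3 : 0 ≤ Real.log X / X := div_nonneg (Real.log_natCast_nonneg X) (Nat.cast_nonneg X)
    rw [Real.norm_eq_abs, abs_mul, abs_of_nonneg h3]
    exact mul_le_mul_of_nonneg_left (h X) h3
  have h4 := h1.add hg
  rw [zero_add] at h4
  refine h4.congr fun X => ?_
  ring

/-- the `n < X` in the class `a` with `n + h` prime -/
noncomputable def cn (M a h X : ℕ) : ℕ := ((range X).filter (fun n => n % M = a ∧ (n + h).Prime)).card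

lemma cn_tendsto (M a h : ℕ) (hM : 0 < M) (ha : a < M) :
    Tendsto (fun X : ℕ => Real.log X / X * (cn M a h X : ℝ)) atTop
      (𝓝 (if (a + h).Coprime M then 1 / (M.totient : ℝ) else 0)) := by
  by_cases hc : (a + h).Coprime M
  · rw [if_pos hc]
    refine close_tendsto (K := h + 2) (fun X => ?_) (cap_tendsto M (a + h) hM hc)
    have hmod : ∀ n : ℕ, n % M = a ↔ (n + h) % M = (a + h) % M := by
      intro n
      constructor
      · intro h1
        have : n % M = a % M := by rw [h1, Nat.mod_eq_of_lt ha]
        exact Nat.ModEq.add_right h this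
      · intro h1
        have h2 : n % M = a % M := Nat.ModEq.add_right_cancel' h h1
        rw [h2, Nat.mod_eq_of_lt ha]
    -- upper bound
    have h1 : cn M a h X ≤ cap M (a + h) X + h := by
      unfold cn cap
      have hsub : ((range X).filter (fun n => n % M = a ∧ (n + h).Prime)).image (fun n => n + h) ⊆
          (Icc 1 X).filter (fun p => p.Prime ∧ p % M = (a + h) % M) ∪ Ioc X (X + h) := by
        intro p hp
        rw [mem_image] at hp
        obtain ⟨n, hn, rfl⟩ := hp
        rw [mem_filter, mem_range] at hn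
        rw [mem_union, mem_filter, mem_Icc, mem_Ioc]
        by_cases hX : n + h ≤ X
        · exact Or.inl ⟨⟨hn.2.2.one_lt.le, hX⟩, hn.2.2, (hmod n).1 hn.2.1⟩
        · exact Or.inr ⟨by omega, by omega⟩
      rw [← Finset.card_image_of_injective _ (add_left_injective h)]
      refine (Finset.card_le_card hsub).trans ((Finset.card_union_le _ _).trans ?_)
      rw [Nat.card_Ioc]
      omega
    have h2 : cap M (a + h) X ≤ cn M a h X + (h + 1) + 1 := by
      unfold cn cap
      have hsub : (Icc 1 X).filter (fun p => p.Prime ∧ p % M = (a + h) % M) ⊆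
          (((range X).filter (fun n => n % M = a ∧ (n + h).Prime)).image (fun n => n + h) ∪ range (h + 1)) ∪ {X} := by
        intro p hp
        rw [mem_filter, mem_Icc] at hp
        rw [mem_union, mem_union, mem_image, mem_range, mem_singleton]
        by_cases hpX : p = X
        · exact Or.inr hpX
        · left
          by_cases hph : p < h + 1
          · exact Or.inr hph
          · left
            have e : p - h + h = p := by omega
            refine ⟨p - h, ?_, e⟩
            rw [mem_filter, mem_range]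
            refine ⟨by omega, ?_, ?_⟩
            · rw [hmod, e]
              exact hp.2.2
            · rw [e]
              exact hp.2.1
      refine (Finset.card_le_card hsub).trans ((Finset.card_union_le _ _).trans ?_)
      rw [card_singleton]
      refine Nat.add_le_add_right ((Finset.card_union_le _ _).trans ?_) 1
      rw [card_range]
      exact Nat.add_le_add_right Finset.card_image_le _
    rw [abs_le]
    have h1' : (cn M a h X : ℝ) ≤ cap M (a + h) X + h := by exact_mod_cast h1
    have h2' : (cap M (a + h) X : ℝ) ≤ cn M a h X + (h + 1) + 1 := by exact_mod_cast h2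
    constructor <;> linarith [Nat.cast_nonneg (α := ℝ) h]
  · rw [if_neg hc]
    refine close_tendsto (g := fun _ => 0) (K := 1) (fun X => ?_) (by simp)
    have h1 : cn M a h X ≤ 1 := by
      unfold cn
      rw [Finset.card_le_one]
      intro n hn n' hn'
      rw [mem_filter] at hn hn'
      have key : ∀ n : ℕ, n % M = a → (n + h).Prime → n + h = Nat.gcd (a + h) M := by
        intro n h1 h2
        have h3 : Nat.gcd (a + h) M ∣ n + h := by
          have h4 : (n + h) % M = (a + h) % M := by
            have : n % M = a % M := by rw [h1, Nat.mod_eq_of_lt ha]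
            exact Nat.ModEq.add_right h this
          have h5 : Nat.gcd (n + h) M = Nat.gcd (a + h) M := Nat.ModEq.gcd_eq h4
          rw [← h5]
          exact Nat.gcd_dvd_left _ _
        rcases (Nat.dvd_prime h2).1 h3 with h6 | h6
        · exact absurd h6 hc
        · exact h6.symm
      have h2 := key n hn.2.1 hn.2.2
      have h3 := key n' hn'.2.1 hn'.2.2
      omega
    rw [sub_zero, abs_of_nonneg (Nat.cast_nonneg _)]
    exact_mod_cast h1

/-- summation over the classes -/
lemma sum_classes (M : ℕ) (hM : 0 < M) (w : ℕ → ℝ) (hw : ∀ n, w n = w (n % M)) (P : ℕ → Prop) [DecidablePred P]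
    (X : ℕ) : ∑ n ∈ range X, w n * (if P n then 1 else 0) =
      ∑ a ∈ range M, w a * (((range X).filter (fun n => n % M = a ∧ P n)).card : ℝ) := by
  have h1 : ∑ n ∈ range X, w n * (if P n then (1 : ℝ) else 0) =
      ∑ a ∈ range M, ∑ n ∈ (range X).filter (fun n => n % M = a), w n * (if P n then (1 : ℝ) else 0) := by
    rw [Finset.sum_fiberwise_of_maps_to]
    intro n _
    exact mem_range.2 (Nat.mod_lt _ hM)
  rw [h1]
  refine Finset.sum_congr rfl fun a _ => ?_
  have h2 : ∀ n ∈ (range X).filter (fun n => n % M = a), w n * (if P n then (1 : ℝ) else 0) =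
      w a * (if P n then (1 : ℝ) else 0) := by
    intro n hn
    rw [mem_filter] at hn
    rw [hw n, hn.2]
  rw [Finset.sum_congr rfl h2, ← Finset.mul_sum, Finset.sum_boole, Finset.filter_filter]

theorem t_PR : S_PR := by
  intro Q H c
  set M := Q.factorial with hMdef
  have hM : 0 < M := Nat.factorial_pos Q
  have hw : ∀ n, wt Q c n = wt Q c (n % M) := by
    intro n
    unfold wt
    refine Finset.sum_congr rfl fun d hd => ?_
    rw [mem_Icc] at hd
    have hd' : d ∣ M := Nat.dvd_factorial (by omega) hd.2
    rw [Nat.mod_mod_of_dvd n hd']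
  -- the sums
  have hsum : ∀ X : ℕ, Real.log X / X * ∑ n ∈ range X, wt Q c n * (prm H n : ℝ) =
      ∑ h ∈ H, ∑ a ∈ range M, wt Q c a * (Real.log X / X * (cn M a h X : ℝ)) := by
    intro X
    have e1 : ∀ n, (prm H n : ℝ) = ∑ h ∈ H, (if (n + h).Prime then (1 : ℝ) else 0) := by
      intro n
      unfold prm
      rw [Finset.sum_boole]
    have e2 : ∑ n ∈ range X, wt Q c n * (prm H n : ℝ) =
        ∑ h ∈ H, ∑ a ∈ range M, wt Q c a * (cn M a h X : ℝ) := by
      simp only [e1, Finset.mul_sum]
      rw [Finset.sum_comm]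
      refine Finset.sum_congr rfl fun h _ => ?_
      exact sum_classes M hM (wt Q c) hw (fun n => (n + h).Prime) X
    rw [e2, Finset.mul_sum]
    refine Finset.sum_congr rfl fun h _ => ?_
    rw [Finset.mul_sum]
    refine Finset.sum_congr rfl fun a _ => ?_
    ring
  have hrgh : ∀ n, (rgh Q H n : ℝ) = ∑ h ∈ H, (if (n + h).Coprime M then (1 : ℝ) else 0) := by
    intro n
    unfold rgh
    rw [Finset.sum_boole]
    congr 2
    refine Finset.filter_congr fun h _ => ?_
    constructor
    · intro h1
      refine Nat.Coprime.symm (Nat.coprime_of_dvd' fun p hp hpM hpn => ?_)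
      exfalso
      have hpQ : p ≤ Q := (hp.dvd_factorial).1 hpM
      exact h1 p (mem_filter.2 ⟨mem_Icc.2 ⟨hp.one_lt.le, hpQ⟩, hp⟩) hpn
    · intro h1 p hp hpn
      rw [mem_filter, mem_Icc] at hp
      have hpM : p ∣ M := (hp.2.dvd_factorial).2 hp.1.2
      have h2 := Nat.dvd_gcd hpn hpM
      rw [Nat.Coprime] at h1
      rw [h1] at h2
      exact hp.2.one_lt.ne' (Nat.dvd_one.1 h2)
  have hlim : (∑ n ∈ range M, wt Q c n * (rgh Q H n : ℝ)) / (M.totient : ℝ) =
      ∑ h ∈ H, ∑ a ∈ range M, wt Q c a * (if (a + h).Coprime M then 1 / (M.totient : ℝ) else 0) := by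
    simp only [hrgh, Finset.mul_sum]
    rw [Finset.sum_comm, Finset.sum_div]
    refine Finset.sum_congr rfl fun h _ => ?_
    rw [Finset.sum_div]
    refine Finset.sum_congr rfl fun a _ => ?_
    split_ifs
    · ring
    · simp
  rw [hlim]
  simp only [hsum]
  refine tendsto_finsetSum _ fun h _ => tendsto_finsetSum _ fun a ha => ?_
  exact (cn_tendsto M a h hM (mem_range.1 ha)).const_mul _

end Pool.Agent.U136.NWS
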