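import Pool.Agent.U136.NWS.FinStm2
import Pool.Agent.N422.NW.MER

/-! Project NWS (helper136): from rough numbers to primes. -/

set_option autoImplicit false

open Finset

namespace Pool.Agent.U136.NWS

open Pool.Agent.N422.NW

lemma totient_fac (Q : ℕ) : (Q.factorial.totient : ℝ) =
    Q.factorial * ∏ p ∈ (Icc 1 Q).filter Nat.Prime, (1 - 1 / (p : ℝ)) := by
  have h1 := Nat.totient_eq_mul_prod_factors Q.factorial
  have h2 : Q.factorial.primeFactors = (Icc 1 Q).filter Nat.Prime := by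
    ext p
    rw [Nat.mem_primeFactors, mem_filter, mem_Icc]
    constructor
    · rintro ⟨hp, hd, _⟩
      exact ⟨⟨hp.one_lt.le, (hp.dvd_factorial).1 hd⟩, hp⟩
    · rintro ⟨⟨_, h⟩, hp⟩
      exact ⟨hp, (hp.dvd_factorial).2 h, Nat.factorial_ne_zero Q⟩
  rw [h2] at h1
  have h3 : ((Q.factorial.totient : ℚ) : ℝ) =
      ((Q.factorial * ∏ p ∈ (Icc 1 Q).filter Nat.Prime, (1 - (p : ℚ)⁻¹) : ℚ) : ℝ) := by rw [h1]
  push_cast at h3
  rw [h3]
  simp only [one_div]

/-- the limit for primes -/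
theorem fin_primes (h1 : S_FIN1) (hV : S_VQ) : ∀ ε : ℝ, 0 < ε → ∃ C : ℝ, 0 ≤ C ∧ ∀ k : ℕ, 1 ≤ k → ∀ B : ℝ,
    ∃ Q₀ : ℕ, ∀ Q : ℕ, Q₀ ≤ Q →
    ∀ H : Finset ℕ, H.card = k → (∀ h ∈ H, (h : ℝ) ≤ (Q : ℝ) ^ B) → ∀ c : ℕ → ℕ → ℝ, (∀ n, 0 ≤ wt Q c n) →
    ∑ n ∈ range Q.factorial, wt Q c n * (rgh Q H n : ℝ) ≤
      ((Real.exp (-Real.eulerMascheroniConstant) / 2 + ε) * Real.log k + C) * ∑ n ∈ range Q.factorial, wt Q c n ∧
    (∑ n ∈ range Q.factorial, wt Q c n * (rgh Q H n : ℝ)) / (Q.factorial.totient : ℝ) ≤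
      ((1 / 2 + ε) * Real.log k + C) * Real.log Q *
        ((∑ n ∈ range Q.factorial, wt Q c n) / (Q.factorial : ℝ)) := by
  intro ε hε
  set γ := Real.eulerMascheroniConstant with hγ
  have hγ1 : γ < 2 / 3 := Real.eulerMascheroniConstant_lt_two_thirds
  have hγ0 : 0 < γ := by
    have := Real.one_half_lt_eulerMascheroniConstant
    linarith
  have hE2 : Real.exp γ ≤ 2 := by
    have h2 : Real.exp γ ≤ Real.exp (2 / 3) := Real.exp_le_exp.2 hγ1.le
    have h3 : Real.exp (2 / 3) ≤ 2 := by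
      rw [← Real.le_log_iff_exp_le (by norm_num)]
      linarith [Real.log_two_gt_d9]
    linarith
  set ε' : ℝ := min 1 (ε / 8) with hε'
  have hε'0 : 0 < ε' := lt_min one_pos (by positivity)
  have hε'1 : ε' ≤ 1 := min_le_left _ _
  have hε'8 : ε' ≤ ε / 8 := min_le_right _ _
  obtain ⟨C, hC, hF⟩ := h1 ε' hε'0
  obtain ⟨Q1, hQ1⟩ := hV.1 ε' hε'0
  refine ⟨3 * C, by positivity, fun k hk B => ?_⟩
  obtain ⟨Q₀, hQ₀⟩ := hF k hk B
  refine ⟨max Q₀ (max Q1 1), fun Q hQ H hH hHB c hc => ?_⟩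
  have hQa : Q₀ ≤ Q := (le_max_left _ _).trans hQ
  have hQb : Q1 ≤ Q := ((le_max_left _ _).trans (le_max_right _ _)).trans hQ
  have hQc : 1 ≤ Q := ((le_max_right _ _).trans (le_max_right _ _)).trans hQ
  have hmain := hQ₀ Q hQa H hH hHB c hc
  have hprod := hQ1 Q hQb
  have hlogk : 0 ≤ Real.log k := Real.log_natCast_nonneg k
  have hlogQ : 0 ≤ Real.log Q := Real.log_natCast_nonneg Q
  set S : ℝ := ∑ n ∈ range Q.factorial, wt Q c n with hS
  have hS0 : 0 ≤ S := Finset.sum_nonneg fun n _ => hc n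
  set R : ℝ := ∑ n ∈ range Q.factorial, wt Q c n * (rgh Q H n : ℝ) with hR
  have hR0 : 0 ≤ R := Finset.sum_nonneg fun n _ => mul_nonneg (hc n) (by positivity)
  set G : ℝ := Real.exp (-γ) with hG
  have hG0 : 0 < G := Real.exp_pos _
  have hG1 : G ≤ 1 := by rw [hG, Real.exp_le_one_iff]; linarith
  have hGE : G * Real.exp γ = 1 := by rw [hG, ← Real.exp_add]; simp
  constructor
  · refine hmain.trans (mul_le_mul_of_nonneg_right ?_ hS0)
    have : (G / 2 + ε') * Real.log k ≤ (G / 2 + ε) * Real.log k :=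
      mul_le_mul_of_nonneg_right (by linarith) hlogk
    linarith
  · rw [totient_fac]
    set PP := ∏ p ∈ (Icc 1 Q).filter Nat.Prime, (1 - 1 / (p : ℝ)) with hPP
    have hPP0 : 0 < PP := by
      refine Finset.prod_pos fun p hp => ?_
      rw [mem_filter] at hp
      have h2 : (1 : ℝ) < p := by exact_mod_cast hp.2.one_lt
      rw [sub_pos, div_lt_one (by linarith)]
      exact h2
    have hM : (0 : ℝ) < Q.factorial := by exact_mod_cast Nat.factorial_pos Q
    have e1 : R / (Q.factorial * PP) = PP⁻¹ * (R / Q.factorial) := by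
      field_simp
    rw [e1]
    have hcoef : (Real.exp γ + ε') * ((G / 2 + ε') * Real.log k + C) ≤ (1 / 2 + ε) * Real.log k + 3 * C := by
      have h2 : (Real.exp γ + ε') * (G / 2 + ε') ≤ 1 / 2 + ε := by
        have h3 : (Real.exp γ + ε') * (G / 2 + ε') = 1 / 2 + ε' * Real.exp γ + ε' * G / 2 + ε' * ε' := by
          have : Real.exp γ * G = 1 := by rw [mul_comm]; exact hGE
          linear_combination (1 / 2) * this
        rw [h3]
        have h4 : ε' * Real.exp γ ≤ ε' * 2 := mul_le_mul_of_nonneg_left hE2 hε'0.le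
        have h5 : ε' * G ≤ ε' := mul_le_of_le_one_right hε'0.le hG1
        have h6 : ε' * ε' ≤ ε' := mul_le_of_le_one_right hε'0.le hε'1
        linarith
      have h7 : (Real.exp γ + ε') * C ≤ 3 * C := mul_le_mul_of_nonneg_right (by linarith) hC
      have h8 := mul_le_mul_of_nonneg_right h2 hlogk
      nlinarith
    calc PP⁻¹ * (R / Q.factorial) ≤ ((Real.exp γ + ε') * Real.log Q) *
          (((G / 2 + ε') * Real.log k + C) * (S / Q.factorial)) := by
          refine mul_le_mul hprod ?_ (by positivity) (by positivity)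
          rw [← mul_div_assoc]
          exact div_le_div_of_nonneg_right hmain hM.le
      _ = ((Real.exp γ + ε') * ((G / 2 + ε') * Real.log k + C)) * (Real.log Q * (S / Q.factorial)) := by ring
      _ ≤ ((1 / 2 + ε) * Real.log k + 3 * C) * (Real.log Q * (S / Q.factorial)) :=
          mul_le_mul_of_nonneg_right hcoef (by positivity)
      _ = _ := by ring

end Pool.Agent.U136.NWS
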