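import Pool.Agent.U136.NWS.Core2

/-! Project NWS (helper136): the sharp limit in the model. -/

set_option autoImplicit false

open Finset

namespace Pool.Agent.U136.NWS

open Pool.Agent.N422.NW Pool.Agent.N422.NWS

lemma num_PS {δ G : ℝ} (h0 : 0 ≤ δ) (h1 : δ ≤ 1) (hG0 : 0 ≤ G) (hG1 : G ≤ 1) :
    (1 + δ) ^ 2 * ((1 / 2 + δ) * (1 + δ) * (G + δ) + 2 * δ) ≤ G / 2 + 32 * δ := by
  have hd2 : δ ^ 2 ≤ δ := by nlinarith
  have e1 : (1 / 2 + δ) * (1 + δ) ≤ 1 / 2 + 5 / 2 * δ := by nlinarith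
  have e2 : (1 / 2 + δ) * (1 + δ) * (G + δ) ≤ G / 2 + 11 / 2 * δ := by
    calc (1 / 2 + δ) * (1 + δ) * (G + δ) ≤ (1 / 2 + 5 / 2 * δ) * (G + δ) :=
          mul_le_mul_of_nonneg_right e1 (by positivity)
      _ = G / 2 + δ / 2 + 5 / 2 * (δ * G) + 5 / 2 * δ ^ 2 := by ring
      _ ≤ G / 2 + δ / 2 + 5 / 2 * δ + 5 / 2 * δ := by
          have : δ * G ≤ δ := by nlinarith
          linarith
      _ = _ := by ring
  have e3 : (1 + δ) ^ 2 ≤ 1 + 3 * δ := by nlinarith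
  calc (1 + δ) ^ 2 * ((1 / 2 + δ) * (1 + δ) * (G + δ) + 2 * δ) ≤ (1 + 3 * δ) * (G / 2 + 15 / 2 * δ) := by
        refine mul_le_mul e3 (by linarith) (by positivity) (by positivity)
    _ = G / 2 + 15 / 2 * δ + 3 / 2 * (δ * G) + 45 / 2 * δ ^ 2 := by ring
    _ ≤ G / 2 + 15 / 2 * δ + 3 / 2 * δ + 45 / 2 * δ := by
        have : δ * G ≤ δ := by nlinarith
        linarith
    _ ≤ G / 2 + 32 * δ := by linarith

lemma exists_tau (ρ J m : ℕ) {δ c : ℝ} (hδ : 0 < δ) (hc : 0 < c) :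
    ∃ τ : ℝ, 0 < τ ∧ (ρ : ℝ) * J * (Real.exp τ - 1) ≤ 1 ∧
      (1 + (ρ : ℝ) * J * (Real.exp τ - 1)) ^ m ≤ 1 + δ ∧ Real.exp ((m : ℝ) * τ) ≤ 1 + δ ∧ (m : ℝ) * τ ≤ c := by
  have h1 : ∀ᶠ τ in nhds (0 : ℝ), (ρ : ℝ) * J * (Real.exp τ - 1) < 1 := by
    have hcont : Continuous fun τ : ℝ => (ρ : ℝ) * J * (Real.exp τ - 1) := by fun_prop
    refine hcont.continuousAt.eventually_lt continuousAt_const ?_
    simp
  have h2 : ∀ᶠ τ in nhds (0 : ℝ), (1 + (ρ : ℝ) * J * (Real.exp τ - 1)) ^ m < 1 + δ := by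
    have hcont : Continuous fun τ : ℝ => (1 + (ρ : ℝ) * J * (Real.exp τ - 1)) ^ m := by fun_prop
    refine hcont.continuousAt.eventually_lt continuousAt_const ?_
    simp [hδ]
  have h3 : ∀ᶠ τ in nhds (0 : ℝ), Real.exp ((m : ℝ) * τ) < 1 + δ := by
    have hcont : Continuous fun τ : ℝ => Real.exp ((m : ℝ) * τ) := by fun_prop
    refine hcont.continuousAt.eventually_lt continuousAt_const ?_
    simp [hδ]
  have h4 : ∀ᶠ τ in nhds (0 : ℝ), (m : ℝ) * τ < c := by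
    have hcont : Continuous fun τ : ℝ => (m : ℝ) * τ := by fun_prop
    refine hcont.continuousAt.eventually_lt continuousAt_const ?_
    simp [hc]
  have h5 : ∀ᶠ τ in nhdsWithin (0 : ℝ) (Set.Ioi 0), 0 < τ ∧ (ρ : ℝ) * J * (Real.exp τ - 1) < 1 ∧
      (1 + (ρ : ℝ) * J * (Real.exp τ - 1)) ^ m < 1 + δ ∧ Real.exp ((m : ℝ) * τ) < 1 + δ ∧ (m : ℝ) * τ < c := by
    filter_upwards [self_mem_nhdsWithin, h1.filter_mono nhdsWithin_le_nhds, h2.filter_mono nhdsWithin_le_nhds,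
      h3.filter_mono nhdsWithin_le_nhds, h4.filter_mono nhdsWithin_le_nhds] with τ a b c d e
    exact ⟨a, b, c, d, e⟩
  obtain ⟨τ, a, b, c, d, e⟩ := h5.exists
  exact ⟨τ, a, b.le, c.le, d.le, e.le⟩

theorem t_PSs (hM : S_MULTI) (hS : S_SITE) (hH : S_HITS) (hE : S_EVAL) : S_PSs := by
  intro ε hε
  obtain ⟨C0, hC0, hEv⟩ := hE
  set G : ℝ := Real.exp (-Real.eulerMascheroniConstant) with hG
  have hG0 : 0 ≤ G := (Real.exp_pos _).le
  have hG1 : G ≤ 1 := by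
    rw [hG, Real.exp_le_one_iff]
    linarith [Real.one_half_lt_eulerMascheroniConstant]
  set δ : ℝ := min 1 (ε / 32) with hδ
  have hδ0 : 0 < δ := lt_min one_pos (by positivity)
  have hδ1 : δ ≤ 1 := min_le_left _ _
  have hδε : 32 * δ ≤ ε := by
    have : δ ≤ ε / 32 := min_le_right _ _
    linarith
  set ρ : ℕ := ⌈Real.exp (C0 / δ + 1)⌉₊ + 2 with hρdef
  have hρ2 : 2 ≤ ρ := by omega
  have hρ0 : (0 : ℝ) < ρ := by
    have : 0 < ρ := by omega
    exact_mod_cast this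
  have hlog : C0 / δ + 1 ≤ Real.log ρ := by
    rw [Real.le_log_iff_exp_le hρ0, hρdef]
    push_cast
    linarith [Nat.le_ceil (Real.exp (C0 / δ + 1))]
  have hlog1 : 1 ≤ Real.log ρ := by
    have : 0 ≤ C0 / δ := by positivity
    linarith
  have hlogC : C0 ≤ δ * Real.log ρ := by
    have h1 : C0 / δ ≤ Real.log ρ := by linarith
    rw [div_le_iff₀ hδ0] at h1
    linarith
  obtain ⟨J0, hJ01, hJ0⟩ := hEv ρ hρ2
  set J : ℕ := max J0 2 with hJ
  have hJ2 : 2 ≤ J := le_max_right _ _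
  have hJpos : (0 : ℝ) < J := by
    have : 0 < J := by omega
    exact_mod_cast this
  have hJ1 : (1 : ℝ) ≤ J := by
    have : 1 ≤ J := by omega
    exact_mod_cast this
  have hEVJ := hJ0 J (le_max_left _ _)
  have hEVdef : ∑ A ∈ (Ico J (ρ * J)).powerset.erase ∅, (∏ h ∈ A, 1 / (h : ℝ)) / (∑ h ∈ A, (h : ℝ)) = EV ρ J := rfl
  rw [hEVdef] at hEVJ
  set ε1 : ℝ := δ / J with hε1
  have hε10 : 0 < ε1 := by positivity
  have hε1δ : ε1 ≤ δ := div_le_self hδ0.le hJ1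
  obtain ⟨B0, υ0, hB0, hυ0, hSITE⟩ := hS ((ρ - 1) * J) (fun c => J + (c : ℕ)) ε1 (fun c => by omega) hε10
  set EJ : ℝ := (G * Real.log ρ + C0) / J with hEJ
  have hEJ0 : 0 ≤ EJ := by positivity
  have hEVle : EV ρ J ≤ EJ := by
    rw [hEJ, le_div_iff₀ hJpos]
    linarith
  have hEV0 : 0 ≤ EV ρ J := by
    unfold EV
    refine Finset.sum_nonneg fun A _ => ?_
    refine div_nonneg (Finset.prod_nonneg fun h _ => by positivity) (Finset.sum_nonneg fun h _ => by positivity)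
  set D : ℝ := (1 / 2 + ε1) * ((1 + δ) * EJ) + ε1 with hD
  have hD0 : 0 ≤ D := by positivity
  set D1 : ℝ := D + ε1 with hD1
  have hDD1 : D ≤ D1 := by linarith
  have hD10 : 0 ≤ D1 := by positivity
  set b : ℝ := min B0 (min 1 (δ / (4 * (1 + D)))) with hb
  have hb0 : 0 < b := lt_min hB0 (lt_min one_pos (by positivity))
  have hbB : b ≤ B0 := min_le_left _ _
  have hb1 : b ≤ 1 := (min_le_right _ _).trans (min_le_left _ _)
  have hbD : b * (1 + D) ≤ δ / 4 := by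
    have h1 : b ≤ δ / (4 * (1 + D)) := (min_le_right _ _).trans (min_le_right _ _)
    calc b * (1 + D) ≤ δ / (4 * (1 + D)) * (1 + D) := mul_le_mul_of_nonneg_right h1 (by positivity)
      _ = δ / 4 := by field_simp
  refine ⟨4 * J / b, by positivity, fun k hk => ?_⟩
  set L : ℕ := Nat.log ρ k + 1 with hL
  have hkL : k ≤ ρ ^ L := (Nat.lt_pow_succ_log_self (by omega) k).le
  have hLlog : ((L - 1 : ℕ) : ℝ) * Real.log ρ ≤ Real.log k := by
    have h1 : ρ ^ (L - 1) ≤ k := by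
      have : L - 1 = Nat.log ρ k := by omega
      rw [this]
      exact Nat.pow_log_le_self ρ (by omega)
    have h2 : ((ρ : ℝ)) ^ (L - 1) ≤ k := by exact_mod_cast h1
    have h3 := Real.log_le_log (by positivity) h2
    rwa [Real.log_pow] at h3
  have hBL : 0 < BB b D1 L := BB_pos hb0 hD10 L
  obtain ⟨τ, hτ, hτ1, hτ2, hτ3, hτ4⟩ := exists_tau ρ J ((ρ - 1) * J) hδ0
    (show 0 < ε1 * BB b D1 L / (1 + D1 * b) by positivity)
  have hrec : (((ρ - 1) * J : ℕ) : ℝ) * τ * (1 + D1 * b) ≤ (D1 - D) * BB b D1 L := by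
    rw [le_div_iff₀ (by positivity)] at hτ4
    have : D1 - D = ε1 := by rw [hD1]; ring
    rw [this]
    exact hτ4
  have hρL1 : 1 ≤ ρ ^ L := Nat.one_le_pow _ _ (by omega)
  obtain ⟨q0, hq0, hcore⟩ := core hM hH ρ J L k hρ2 hJ2 (by omega) hkL ε1 B0 υ0 D D1 b τ (δ / 4) hε10 hυ0 hSITE hτ
    hτ1 (by
      rw [hD]
      have h1 : (1 + (ρ : ℝ) * J * (Real.exp τ - 1)) ^ ((ρ - 1) * J) * EV ρ J ≤ (1 + δ) * EJ :=
        mul_le_mul hτ2 hEVle hEV0 (by positivity)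
      have h2 := mul_le_mul_of_nonneg_left h1 (show 0 ≤ 1 / 2 + ε1 by positivity)
      linarith) hD0 hDD1 hb0 hbB hrec (by positivity)
  refine ⟨J, ρ ^ L * J, τ / (2 * ρ ^ L), max q0 (k + 1), by omega, ?_, by positivity, lt_max_of_lt_left hq0, ?_⟩
  · calc J = 1 * J := by ring
      _ ≤ ρ ^ L * J := Nat.mul_le_mul_right _ hρL1
  intro N q β hβ hq hsum f hf hLev
  refine (hcore N q β hβ (fun i => (le_max_left _ _).trans (hq i)) hsum f hf hLev).trans ?_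
  have hF0 : 0 ≤ ∑ γ : St N k, muP q γ * f γ := by
    refine Finset.sum_nonneg fun γ _ => mul_nonneg ?_ (hf γ)
    rw [muP_eq]
    have hqk : ∀ i, (k : ℝ) + 1 ≤ q i := fun i => (le_max_right _ _).trans (hq i)
    have hk0 : (0 : ℝ) ≤ k := by positivity
    refine muU_nonneg (fun i => ?_) (fun i => ?_) γ
    · have := hqk i
      have : 0 < q i := by linarith
      positivity
    · have := hqk i
      rw [mul_one_div, div_le_one (by linarith)]
      linarith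
  have hlogk : 0 ≤ Real.log k := Real.log_natCast_nonneg k
  have hcoef : (J + b + D * b ^ 2 + δ / 4) * Real.exp ((((ρ - 1) * J : ℕ) : ℝ) * τ) *
      (1 / b + ((L - 1 : ℕ) : ℝ) * D1) ≤ (G / 2 + ε) * Real.log k + 4 * J / b := by
    have h1 : J + b + D * b ^ 2 + δ / 4 ≤ J * (1 + δ) := by
      have h2 : D * b ^ 2 ≤ D * b := by
        have : b ^ 2 ≤ b := by nlinarith
        exact mul_le_mul_of_nonneg_left this hD0
      have h3 : δ ≤ J * δ := le_mul_of_one_le_left hδ0.le hJ1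
      nlinarith
    have h4 : (J + b + D * b ^ 2 + δ / 4) * Real.exp ((((ρ - 1) * J : ℕ) : ℝ) * τ) ≤ J * (1 + δ) ^ 2 := by
      calc (J + b + D * b ^ 2 + δ / 4) * Real.exp ((((ρ - 1) * J : ℕ) : ℝ) * τ) ≤ (J * (1 + δ)) * (1 + δ) :=
            mul_le_mul h1 hτ3 (Real.exp_pos _).le (by positivity)
        _ = _ := by ring
    have h5 : 0 ≤ 1 / b + ((L - 1 : ℕ) : ℝ) * D1 := by positivity
    have h6 : (1 + δ) ^ 2 ≤ 4 := by nlinarith
    have hJD1 : J * D1 ≤ Real.log ρ * ((1 / 2 + δ) * (1 + δ) * (G + δ) + 2 * δ) := by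
      have e1 : (J : ℝ) * D1 = (1 / 2 + ε1) * (1 + δ) * (G * Real.log ρ + C0) + 2 * δ := by
        rw [hD1, hD, hEJ, hε1]
        field_simp
        ring
      rw [e1]
      have e2 : G * Real.log ρ + C0 ≤ (G + δ) * Real.log ρ := by linarith
      have e3 : (1 / 2 + ε1) * (1 + δ) * (G * Real.log ρ + C0) ≤ (1 / 2 + δ) * (1 + δ) * ((G + δ) * Real.log ρ) := by
        gcongr
      have e4 : 2 * δ ≤ 2 * δ * Real.log ρ := le_mul_of_one_le_right (by positivity) hlog1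
      calc _ ≤ (1 / 2 + δ) * (1 + δ) * ((G + δ) * Real.log ρ) + 2 * δ * Real.log ρ := by linarith
        _ = _ := by ring
    calc _ ≤ J * (1 + δ) ^ 2 * (1 / b + ((L - 1 : ℕ) : ℝ) * D1) := mul_le_mul_of_nonneg_right h4 h5
      _ = (1 + δ) ^ 2 * (J / b) + (1 + δ) ^ 2 * (((L - 1 : ℕ) : ℝ) * (J * D1)) := by ring
      _ ≤ 4 * (J / b) + (1 + δ) ^ 2 * (((L - 1 : ℕ) : ℝ) *
            (Real.log ρ * ((1 / 2 + δ) * (1 + δ) * (G + δ) + 2 * δ))) := by
          gcongr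
      _ = 4 * (J / b) + (((L - 1 : ℕ) : ℝ) * Real.log ρ) *
            ((1 + δ) ^ 2 * ((1 / 2 + δ) * (1 + δ) * (G + δ) + 2 * δ)) := by ring
      _ ≤ 4 * (J / b) + Real.log k * ((1 + δ) ^ 2 * ((1 / 2 + δ) * (1 + δ) * (G + δ) + 2 * δ)) := by
          gcongr
      _ ≤ 4 * (J / b) + Real.log k * (G / 2 + 32 * δ) := by
          have := num_PS hδ0.le hδ1 hG0 hG1
          gcongr
      _ ≤ 4 * (J / b) + Real.log k * (G / 2 + ε) := by gcongr
      _ = _ := by ring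
  exact mul_le_mul_of_nonneg_right hcoef hF0

end Pool.Agent.U136.NWS
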