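import Pool.Agent.U136.NWS.Fin1
import Pool.Agent.U136.NWS.Fin2
import Pool.Agent.U136.NWS.GEN
import Pool.Agent.U136.NWS.PSs
import Pool.Agent.N422.NW.AR
import Pool.Agent.N422.NW.JEN
import Pool.Agent.N422.NWS.EVAL
import Pool.Agent.U597.NWS.ABS
import Pool.Agent.U394.NWS.CUBE
import Pool.Agent.U506.NWS.HITS
import Pool.Agent.U23.NWS.MER2
import Pool.Agent.U796.NWS.MOM
import Pool.Agent.U221.NWS.MPOL
import Pool.Agent.U623.NWS.MULTI
import Pool.Agent.U913.NWS.SEQ
import Pool.Agent.U692.NWS.SITE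
import Pool.Agent.U540.NWS.TRIG
import Pool.Agent.U808.NWS.WIN

/-! Project NWS (helper136): assembly of the model theorem. -/

set_option autoImplicit false

namespace Pool.Agent.U136.NWS

open Pool.Agent.N422.NW Pool.Agent.N422.NWS

theorem gen : S_GEN := t_GEN t_JEN t_AV

theorem trig : S_TRIG := Pool.Agent.U540.NWS.t_TRIG t_AV

theorem cube : S_CUBE := Pool.Agent.U394.NWS.t_CUBE

theorem win : S_WIN := Pool.Agent.U808.NWS.t_WIN trig cube

theorem site : S_SITE :=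
  Pool.Agent.U692.NWS.t_SITE win Pool.Agent.U913.NWS.t_SEQ Pool.Agent.U796.NWS.t_MOM trig

theorem multi : S_MULTI :=
  Pool.Agent.U623.NWS.t_MULTI gen Pool.Agent.U221.NWS.t_MPOL Pool.Agent.U597.NWS.t_ABS

theorem hits : S_HITS := Pool.Agent.U506.NWS.t_HITS gen t_AV

theorem pss : S_PSs := t_PSs multi site hits Pool.Agent.N422.NWS.t_EVAL

theorem fin1 : S_FIN1 := t_FIN1 pss t_AR t_MER Pool.Agent.U23.NWS.t_MER2

end Pool.Agent.U136.NWS
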