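import Pool.Agent.N422.NWS.Stm

/-! Project NWS (helper136): windows and cells of levels, and the masses of the cells. -/

set_option autoImplicit false

open Finset

namespace Pool.Agent.U136.NWS

open Pool.Agent.N422.NW Pool.Agent.N422.NWS

lemma cell_exists {ρ J L b : ℕ} (hρ : 2 ≤ ρ) (hJ : 1 ≤ J) (hb : J ≤ b) (hb' : b < ρ ^ L * J) :
    ∃ l : ℕ, l < L ∧ ∃ c : Fin ((ρ - 1) * J), ρ ^ l * (J + c) ≤ b ∧ b < ρ ^ l * (J + c + 1) := by
  have hne : b / J ≠ 0 := by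
    have := Nat.div_pos hb hJ
    omega
  obtain ⟨h1, h2⟩ := (Nat.log_eq_iff (b := ρ) (m := Nat.log ρ (b / J)) (n := b / J)
    (Or.inr ⟨by omega, hne⟩)).1 rfl
  set l := Nat.log ρ (b / J) with hl
  have h3 : ρ ^ l * J ≤ b := (Nat.le_div_iff_mul_le hJ).1 h1
  have h4 : b < ρ ^ (l + 1) * J := (Nat.div_lt_iff_lt_mul hJ).1 h2
  have hlL : l < L := by
    by_contra h
    have h5 : ρ ^ L ≤ ρ ^ l := Nat.pow_le_pow_right (by omega) (not_lt.1 h)
    have h6 : ρ ^ L * J ≤ ρ ^ l * J := Nat.mul_le_mul_right _ h5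
    omega
  have hpos : 0 < ρ ^ l := by positivity
  refine ⟨l, hlL, ?_⟩
  have h5 : J ≤ b / ρ ^ l := (Nat.le_div_iff_mul_le hpos).2 (by rw [mul_comm]; exact h3)
  have h6 : b / ρ ^ l < ρ * J := by
    rw [Nat.div_lt_iff_lt_mul hpos]
    calc b < ρ ^ (l + 1) * J := h4
      _ = ρ * J * ρ ^ l := by ring
  have h7 : (ρ - 1) * J + J = ρ * J := by
    have : ρ = (ρ - 1) + 1 := by omega
    conv_rhs => rw [this]
    ring
  refine ⟨⟨b / ρ ^ l - J, by omega⟩, ?_, ?_⟩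
  · simp only
    have : J + (b / ρ ^ l - J) = b / ρ ^ l := by omega
    rw [this]
    exact Nat.mul_div_le b (ρ ^ l)
  · simp only
    have : J + (b / ρ ^ l - J) + 1 = b / ρ ^ l + 1 := by omega
    rw [this]
    exact Nat.lt_mul_div_succ b hpos

lemma cell_unique {ρ J b l l' : ℕ} (hρ : 2 ≤ ρ) (c c' : Fin ((ρ - 1) * J))
    (h1 : ρ ^ l * (J + c) ≤ b) (h2 : b < ρ ^ l * (J + c + 1))
    (h1' : ρ ^ l' * (J + c') ≤ b) (h2' : b < ρ ^ l' * (J + c' + 1)) : l = l' ∧ c = c' := by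
  have h7 : (ρ - 1) * J + J = ρ * J := by
    have : ρ = (ρ - 1) + 1 := by omega
    conv_rhs => rw [this]
    ring
  have key : ∀ (l l' : ℕ) (c c' : Fin ((ρ - 1) * J)), ρ ^ l' * (J + c') ≤ b → b < ρ ^ l * (J + c + 1) →
      ¬ l < l' := by
    intro l l' c c' h1' h2 hlt
    have hc := c.2
    have h3 : b < ρ ^ (l + 1) * J := by
      calc b < ρ ^ l * (J + c + 1) := h2
        _ ≤ ρ ^ l * (ρ * J) := Nat.mul_le_mul_left _ (by omega)
        _ = ρ ^ (l + 1) * J := by ring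
    have h4 : ρ ^ (l + 1) ≤ ρ ^ l' := Nat.pow_le_pow_right (by omega) (by omega)
    have h5 : ρ ^ (l + 1) * J ≤ ρ ^ l' * J := Nat.mul_le_mul_right _ h4
    have h6 : ρ ^ l' * J ≤ ρ ^ l' * (J + c') := Nat.mul_le_mul_left _ (by omega)
    omega
  have e : l = l' := by
    rcases lt_trichotomy l l' with h | h | h
    · exact absurd h (key l l' c c' h1' h2)
    · exact h
    · exact absurd h (key l' l c' c h1 h2')
  subst e
  refine ⟨rfl, ?_⟩
  have hpos : 0 < ρ ^ l := by positivity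
  have e1 : J + (c : ℕ) < J + c' + 1 := by
    by_contra h
    have := Nat.mul_le_mul_left (ρ ^ l) (not_lt.1 h)
    omega
  have e2 : J + (c' : ℕ) < J + c + 1 := by
    by_contra h
    have := Nat.mul_le_mul_left (ρ ^ l) (not_lt.1 h)
    omega
  apply Fin.ext
  omega

lemma tele_log {a b : ℕ} (ha : 0 < a) (hab : a ≤ b) :
    ∑ j ∈ Ico a b, Real.log (((j : ℝ) + 1) / j) = Real.log ((b : ℝ) / a) := by
  induction b, hab using Nat.le_induction with
  | base => simp [div_self (show (a : ℝ) ≠ 0 by positivity)]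
  | succ b hab ih =>
    rw [Finset.sum_Ico_succ_top hab, ih]
    have h1 : (0 : ℝ) < a := by exact_mod_cast ha
    have h2 : (0 : ℝ) < b := by exact_mod_cast (lt_of_lt_of_le ha hab)
    rw [← Real.log_mul (by positivity) (by positivity)]
    congr 1
    push_cast
    field_simp

/-- sums over places by levels -/
lemma fiber_sum {N : ℕ} (u : Fin N → ℝ) (β : Fin N → ℕ) (a b : ℕ) :
    ∑ i ∈ univ.filter (fun i => a ≤ β i ∧ β i < b), u i =
      ∑ j ∈ Ico a b, ∑ i ∈ univ.filter (fun i => β i = j), u i := by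
  rw [← Finset.sum_fiberwise_of_maps_to (s := univ.filter (fun i => a ≤ β i ∧ β i < b)) (t := Ico a b)
    (g := β)]
  · refine Finset.sum_congr rfl fun j hj => ?_
    rw [Finset.mem_Ico] at hj
    refine Finset.sum_congr ?_ fun _ _ => rfl
    ext i
    simp only [mem_filter, mem_univ, true_and]
    constructor
    · rintro ⟨_, h⟩; exact h
    · intro h; exact ⟨by omega, h⟩
  · intro i hi
    simp only [mem_filter, mem_univ, true_and] at hi
    exact Finset.mem_Ico.2 hi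

lemma level_bounds {N : ℕ} (u : Fin N → ℝ) (β : Fin N → ℕ) (m n : ℕ) (η : ℝ)
    (h : ∀ j, m ≤ j → j < n → Real.log (((j : ℝ) + 1) / j) - η ≤ ∑ i ∈ univ.filter (fun i => β i = j), u i ∧
      ∑ i ∈ univ.filter (fun i => β i = j), u i ≤ Real.log (((j : ℝ) + 1) / j) + η)
    {a b : ℕ} (ha : 0 < a) (hm : m ≤ a) (hab : a ≤ b) (hn : b ≤ n) :
    Real.log ((b : ℝ) / a) - (b - a : ℕ) * η ≤ ∑ i ∈ univ.filter (fun i => a ≤ β i ∧ β i < b), u i ∧
    ∑ i ∈ univ.filter (fun i => a ≤ β i ∧ β i < b), u i ≤ Real.log ((b : ℝ) / a) + (b - a : ℕ) * η := by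
  rw [fiber_sum, ← tele_log ha hab]
  have e : ∀ x : ℝ, (b - a : ℕ) * x = ∑ _j ∈ Ico a b, x := by
    intro x
    rw [Finset.sum_const, Nat.card_Ico, nsmul_eq_mul]
  rw [e η, ← Finset.sum_sub_distrib, ← Finset.sum_add_distrib]
  constructor
  · refine Finset.sum_le_sum fun j hj => ?_
    rw [Finset.mem_Ico] at hj
    exact (h j (by omega) (by omega)).1
  · refine Finset.sum_le_sum fun j hj => ?_
    rw [Finset.mem_Ico] at hj
    exact (h j (by omega) (by omega)).2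

lemma one_sub_ge {u : ℝ} (h0 : 0 ≤ u) (h1 : u ≤ 1 / 2) : Real.exp (-u - u ^ 2) ≤ 1 - u := by
  have h2 := Real.quadratic_le_exp_of_nonneg (show 0 ≤ u + u ^ 2 by positivity)
  have h3 : -u - u ^ 2 = -(u + u ^ 2) := by ring
  rw [h3, Real.exp_neg, inv_le_comm₀ (Real.exp_pos _) (by linarith)]
  refine le_trans ?_ h2
  rw [inv_le_iff_one_le_mul₀ (by linarith)]
  have h4 : 0 ≤ 1 - u - u ^ 2 - u ^ 3 := by nlinarith [mul_nonneg h0 h0, mul_nonneg (mul_nonneg h0 h0) h0]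
  nlinarith [mul_nonneg (mul_nonneg h0 h0) h4]

lemma prod_bounds {ι : Type} (s : Finset ι) (u : ι → ℝ) (h0 : ∀ i ∈ s, 0 ≤ u i) (h1 : ∀ i ∈ s, u i ≤ 1 / 2) :
    Real.exp (-(∑ i ∈ s, u i) - ∑ i ∈ s, u i ^ 2) ≤ ∏ i ∈ s, (1 - u i) ∧
    ∏ i ∈ s, (1 - u i) ≤ Real.exp (-(∑ i ∈ s, u i)) := by
  constructor
  · have e : -(∑ i ∈ s, u i) - ∑ i ∈ s, u i ^ 2 = ∑ i ∈ s, (-u i - u i ^ 2) := by
      rw [Finset.sum_sub_distrib, Finset.sum_neg_distrib]
    rw [e, Real.exp_sum]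
    exact Finset.prod_le_prod (fun i _ => (Real.exp_pos _).le) fun i hi => one_sub_ge (h0 i hi) (h1 i hi)
  · rw [← Finset.sum_neg_distrib, Real.exp_sum]
    refine Finset.prod_le_prod (fun i hi => by linarith [h1 i hi]) fun i hi => ?_
    exact Real.one_sub_le_exp_neg _

end Pool.Agent.U136.NWS
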