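import Pool.Agent.U136.NWS.Masses

/-! Project NWS (helper136): the core inequality in the model, with all constants given. -/

set_option autoImplicit false

open Finset

namespace Pool.Agent.U136.NWS

open Pool.Agent.N422.NW Pool.Agent.N422.NWS

/-- the statement of `S_SITE` for given `m`, `hs`, `ε` and constants `B0`, `υ0` -/
def SiteAt (m : ℕ) (hs : Fin m → ℕ) (ε B0 υ0 : ℝ) : Prop :=
  ∀ (N L k : ℕ) (win : Fin N → ℕ) (cel : Fin N → Fin m) (u : Fin N → ℝ) (v : ℕ → ℕ) (t : ℝ) (B : ℕ → ℝ) (D : ℝ),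
  1 ≤ L → (∀ i, win i < L) → (∀ i, 0 ≤ u i ∧ u i ≤ 1 / 2) → 0 < t → (∀ l < L, 1 ≤ v l ∧ v l * t ≤ υ0) →
  (∀ l < L, 0 < B l ∧ B l ≤ B0) → (∀ l < L, ∀ c, pc win cel u l c ≤ 1 / 2) →
  (∀ l < L, (1 / 2 + ε) * (∑ A ∈ univ.erase (∅ : Finset (Fin m)),
    (∏ c ∈ A, pc win cel u l c / (1 - pc win cel u l c)) / (sz hs A : ℝ)) + ε ≤ D) →
  (∀ l, l + 1 < L → v (l + 1) * (B (l + 1) + D * B (l + 1) ^ 2) ≤ (∏ c, (1 - pc win cel u l c))⁻¹ * (v l * B l)) →
  ∃ (K : ℂ → Finset (Fin N) → Finset (Fin N) → ℂ) (Kr : ℂ → Finset (Fin N) → Finset (Fin N) → ℝ)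
    (φ : ℂ → Finset (Fin N) → ℝ),
    (∀ T T', K (Real.exp (-t) : ℝ) T T' = if T' = T then 1 else 0) ∧
    (∀ T F : Finset (Fin N), ∃ P : Polynomial ℂ, ∀ z : ℂ, z ≠ 0 →
      P.eval z = z ^ (∑ i ∈ F, v (win i) * hs (cel i)) *
        ∑ T' ∈ univ.filter (fun T' : Finset (Fin N) => F ⊆ T'), K z T T') ∧
    (∀ z : ℂ, ‖z‖ = 1 → (∀ T T', K z T T' = (Kr z T T' : ℂ) ∧ 0 ≤ Kr z T T') ∧ (∀ T, 0 < φ z T) ∧
      ∀ T', ∑ T, muPl k u T * φ z T * Kr z T T' ≤ Real.exp (4 * k * ∑ i, u i ^ 2) * muPl k u T') ∧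
    ∀ T, CircleIntegrable (fun w => Real.log (φ (psi (Real.exp (-t)) w) T)) 0 1 ∧
      (if T = ∅ then v (L - 1) * t * (∏ c, (1 - pc win cel u (L - 1) c))⁻¹ * B (L - 1) else 0) -
        v 0 * t * (B 0 + D * B 0 ^ 2) ≤
      Real.circleAverage (fun w => Real.log (φ (psi (Real.exp (-t)) w) T)) 0 1

/-- the sequence `B` -/
noncomputable def BB (b D1 : ℝ) (l : ℕ) : ℝ := b / (1 + l * D1 * b)

lemma BB_pos {b D1 : ℝ} (hb : 0 < b) (hD : 0 ≤ D1) (l : ℕ) : 0 < BB b D1 l := by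
  unfold BB; positivity

lemma BB_le {b D1 : ℝ} (hb : 0 < b) (hD : 0 ≤ D1) (l : ℕ) : BB b D1 l ≤ b := by
  unfold BB
  apply div_le_self hb.le
  have : 0 ≤ (l : ℝ) * D1 * b := by positivity
  linarith

lemma BB_ge {b D1 : ℝ} (hb : 0 < b) (hD : 0 ≤ D1) {l L : ℕ} (h : l ≤ L) : BB b D1 L ≤ BB b D1 l := by
  unfold BB
  apply div_le_div_of_nonneg_left hb.le (by positivity)
  have h1 : (l : ℝ) ≤ L := by exact_mod_cast h
  have h2 : (l : ℝ) * D1 * b ≤ L * D1 * b := by gcongr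
  linarith

lemma BB_zero (b D1 : ℝ) : BB b D1 0 = b := by unfold BB; simp

lemma BB_succ {b D1 : ℝ} (hb : 0 < b) (hD : 0 ≤ D1) (l : ℕ) :
    BB b D1 (l + 1) * (1 + D1 * BB b D1 l) = BB b D1 l := by
  unfold BB
  have h1 : 0 < 1 + (l : ℝ) * D1 * b := by positivity
  have h2 : 0 < 1 + ((l : ℝ) + 1) * D1 * b := by positivity
  push_cast
  field_simp
  ring

lemma BB_inv {b D1 : ℝ} (hb : 0 < b) (l : ℕ) : (BB b D1 l)⁻¹ = 1 / b + l * D1 := by
  unfold BB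
  rw [inv_div]
  field_simp

lemma BB_rec {b D D1 x : ℝ} (hb : 0 < b) (hD : 0 ≤ D) (hD1 : D ≤ D1) {l L : ℕ} (hl : l ≤ L) (hx : 0 ≤ x)
    (hrec : x * (1 + D1 * b) ≤ (D1 - D) * BB b D1 L) :
    BB b D1 (l + 1) + D * BB b D1 (l + 1) ^ 2 ≤ Real.exp (-x) * BB b D1 l := by
  have hD1' : 0 ≤ D1 := hD.trans hD1
  have hB := BB_pos hb hD1' l
  have hB' := BB_pos hb hD1' (l + 1)
  have hle := BB_le hb hD1' l
  have hge := BB_ge hb hD1' hl
  have hs := BB_succ hb hD1' l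
  have hmono := BB_ge hb hD1' (Nat.le_succ l)
  set B := BB b D1 l
  set B' := BB b D1 (l + 1)
  have h1 : x * (1 + D1 * B) ≤ (D1 - D) * B := by
    calc x * (1 + D1 * B) ≤ x * (1 + D1 * b) := by gcongr
      _ ≤ (D1 - D) * BB b D1 L := hrec
      _ ≤ (D1 - D) * B := mul_le_mul_of_nonneg_left hge (by linarith)
  have h2 : 1 + D * B' ≤ Real.exp (-x) * (1 + D1 * B) := by
    have h3 : 1 - x ≤ Real.exp (-x) := by
      have := Real.add_one_le_exp (-x)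
      linarith
    have h4 : D * B' ≤ D * B := mul_le_mul_of_nonneg_left hmono hD
    calc 1 + D * B' ≤ 1 + D * B := by linarith
      _ ≤ (1 - x) * (1 + D1 * B) := by nlinarith
      _ ≤ Real.exp (-x) * (1 + D1 * B) := mul_le_mul_of_nonneg_right h3 (by positivity)
  calc B' + D * B' ^ 2 = B' * (1 + D * B') := by ring
    _ ≤ B' * (Real.exp (-x) * (1 + D1 * B)) := mul_le_mul_of_nonneg_left h2 hB'.le
    _ = Real.exp (-x) * (B' * (1 + D1 * B)) := by ring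
    _ = Real.exp (-x) * B := by rw [hs]

lemma Lev_mono {N k n : ℕ} {β ν : Fin N → ℕ} (h : ∀ i, ν i ≤ β i) {f : St N k → ℝ} (hf : Lev β n f) :
    Lev ν n f := by
  obtain ⟨m, S, g, h1, h2, h3⟩ := hf
  exact ⟨m, S, g, fun x => (Finset.sum_le_sum fun i _ => h i).trans (h1 x), h2, h3⟩

lemma muP_eq {N k : ℕ} (q : Fin N → ℝ) (γ : St N k) : muP q γ = muU (fun i => 1 / q i) γ := by
  unfold muP muU
  refine Finset.prod_congr rfl fun i _ => ?_
  cases γ i with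
  | none => simp only [mu1, mu1u]; ring
  | some a => simp only [mu1, mu1u]

lemma muU_nonneg {N k : ℕ} {u : Fin N → ℝ} (h0 : ∀ i, 0 ≤ u i) (h1 : ∀ i, k * u i ≤ 1) (γ : St N k) :
    0 ≤ muU u γ := by
  unfold muU
  refine Finset.prod_nonneg fun i _ => ?_
  cases γ i with
  | none => simp only [mu1u]; linarith [h1 i]
  | some a => simp only [mu1u]; exact h0 i

lemma alive_eq {N k : ℕ} (γ : St N k) : alive γ N = univ.filter (fun a => Ta γ a = ∅) := by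
  unfold alive Ta
  ext a
  simp only [mem_filter, mem_univ, true_and]
  rw [Finset.filter_eq_empty_iff]
  constructor
  · intro h j _
    exact h j j.2
  · intro h j _
    exact h (mem_univ j)

lemma sum_LB {N k : ℕ} (γ : St N k) (X Y : ℝ) :
    ∑ a : Fin k, ((if Ta γ a = ∅ then X else 0) - Y) = ((alive γ N).card : ℝ) * X - k * Y := by
  rw [Finset.sum_sub_distrib, Finset.sum_const, Finset.card_univ, Fintype.card_fin, nsmul_eq_mul, alive_eq,
    Finset.sum_ite, Finset.sum_const_zero, add_zero, Finset.sum_const, nsmul_eq_mul]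

/-- the error term -/
lemma err_le {N k : ℕ} (u : Fin N → ℝ) (ν : Fin N → ℕ) (q0 S0 : ℝ) (hq0 : 1 ≤ q0) (hu0 : ∀ i, 0 ≤ u i)
    (hu : ∀ i, u i ≤ 1 / q0) (hν : ∀ i, 1 ≤ ν i) (hS : ∑ i, u i ≤ S0) (γ : St N k) :
    Real.exp (4 * k * ∑ i, u i ^ 2) ^ k *
      Real.exp (∑ i, (20 * k ^ 2 * u i ^ 2 + if γ i = none then 0 else 2 * k * u i)) - 1 ≤
    Real.exp (24 * k ^ 2 * S0 + 2 * k * S0) / q0 *
      (24 * k ^ 2 * S0 + 2 * k * ∑ i, if γ i = none then 0 else (ν i : ℝ)) := by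
  have hq : 0 < q0 := by linarith
  have hS0 : 0 ≤ S0 := (Finset.sum_nonneg fun i _ => hu0 i).trans hS
  have hU2 : ∑ i, u i ^ 2 ≤ S0 / q0 := by
    calc ∑ i, u i ^ 2 ≤ ∑ i, 1 / q0 * u i := by
          refine Finset.sum_le_sum fun i _ => ?_
          rw [sq]
          exact mul_le_mul_of_nonneg_right (hu i) (hu0 i)
      _ = 1 / q0 * ∑ i, u i := by rw [Finset.mul_sum]
      _ ≤ 1 / q0 * S0 := mul_le_mul_of_nonneg_left hS (by positivity)
      _ = S0 / q0 := by ring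
  have hU20 : 0 ≤ ∑ i, u i ^ 2 := Finset.sum_nonneg fun i _ => sq_nonneg _
  set H1 := ∑ i, (if γ i = none then 0 else u i) with hH1
  set H2 := ∑ i, (if γ i = none then 0 else (ν i : ℝ)) with hH2
  have hH10 : 0 ≤ H1 := Finset.sum_nonneg fun i _ => by split_ifs; exacts [le_rfl, hu0 i]
  have hH1S : H1 ≤ S0 := by
    refine le_trans (Finset.sum_le_sum fun i _ => ?_) hS
    split_ifs
    exacts [hu0 i, le_rfl]
  have hH12 : H1 ≤ H2 / q0 := by
    rw [hH1, hH2, Finset.sum_div]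
    refine Finset.sum_le_sum fun i _ => ?_
    split_ifs
    · simp
    · refine (hu i).trans ?_
      apply div_le_div_of_nonneg_right _ hq.le
      exact_mod_cast hν i
  set x := 24 * (k : ℝ) ^ 2 * ∑ i, u i ^ 2 + 2 * k * H1 with hx
  have e1 : Real.exp (4 * k * ∑ i, u i ^ 2) ^ k *
      Real.exp (∑ i, (20 * k ^ 2 * u i ^ 2 + if γ i = none then 0 else 2 * k * u i)) = Real.exp x := by
    rw [← Real.exp_nat_mul, ← Real.exp_add, Finset.sum_add_distrib, ← Finset.mul_sum]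
    congr 1
    have e2 : ∑ i, (if γ i = none then 0 else 2 * (k : ℝ) * u i) = 2 * k * H1 := by
      rw [hH1, Finset.mul_sum]
      refine Finset.sum_congr rfl fun i _ => ?_
      split_ifs
      · simp
      · rfl
    rw [e2, hx]
    ring
  rw [e1]
  have hx0 : 0 ≤ x := by positivity
  have hxle : x ≤ 24 * (k : ℝ) ^ 2 * S0 + 2 * k * S0 := by
    have h1 : S0 / q0 ≤ S0 := div_le_self hS0 hq0
    rw [hx]
    gcongr
    exact hU2.trans h1
  have hxle2 : x ≤ (24 * (k : ℝ) ^ 2 * S0 + 2 * k * H2) / q0 := by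
    calc x ≤ 24 * (k : ℝ) ^ 2 * (S0 / q0) + 2 * k * (H2 / q0) := by rw [hx]; gcongr
      _ = _ := by ring
  have h3 : Real.exp x - 1 ≤ x * Real.exp x := by
    have h4 := Real.add_one_le_exp (-x)
    have h5 : Real.exp (-x) * Real.exp x = 1 := by rw [← Real.exp_add]; simp
    have h6 := mul_le_mul_of_nonneg_right h4 (Real.exp_pos x).le
    rw [h5] at h6
    linarith
  calc Real.exp x - 1 ≤ x * Real.exp x := h3
    _ ≤ (24 * (k : ℝ) ^ 2 * S0 + 2 * k * H2) / q0 * Real.exp (24 * k ^ 2 * S0 + 2 * k * S0) :=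
        mul_le_mul hxle2 (Real.exp_le_exp.2 hxle) (Real.exp_pos _).le (hx0.trans hxle2)
    _ = _ := by ring

end Pool.Agent.U136.NWS
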