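import Pool.Agent.U136.NWS.Core

/-! Project NWS (helper136): the core inequality in the model, with all constants given. -/

set_option autoImplicit false

open Finset

namespace Pool.Agent.U136.NWS

open Pool.Agent.N422.NW Pool.Agent.N422.NWS

/-- the sum of `S_EVAL` -/
noncomputable def EV (ρ J : ℕ) : ℝ :=
  ∑ A ∈ (Ico J (ρ * J)).powerset.erase ∅, (∏ h ∈ A, 1 / (h : ℝ)) / (∑ h ∈ A, (h : ℝ))

theorem core (hM : S_MULTI) (hH : S_HITS) (ρ J L k : ℕ) (hρ : 2 ≤ ρ) (hJ : 2 ≤ J) (hL : 1 ≤ L)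
    (hk : k ≤ ρ ^ L) (ε1 B0 υ0 D D1 b τ δ2 : ℝ) (hε1 : 0 < ε1) (hυ : 0 < υ0)
    (hSite : SiteAt ((ρ - 1) * J) (fun c => J + (c : ℕ)) ε1 B0 υ0) (hτ : 0 < τ)
    (hδ1 : (ρ : ℝ) * J * (Real.exp τ - 1) ≤ 1)
    (hD : (1 / 2 + ε1) * ((1 + (ρ : ℝ) * J * (Real.exp τ - 1)) ^ ((ρ - 1) * J) * EV ρ J) + ε1 ≤ D)
    (hD0 : 0 ≤ D) (hD1 : D ≤ D1) (hb : 0 < b) (hbB : b ≤ B0)
    (hrec : (((ρ - 1) * J : ℕ) : ℝ) * τ * (1 + D1 * b) ≤ (D1 - D) * BB b D1 L) (hδ2 : 0 < δ2) :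
    ∃ q0 : ℝ, 0 < q0 ∧ ∀ (N : ℕ) (q : Fin N → ℝ) (β : Fin N → ℕ), (∀ i, J ≤ β i ∧ β i < ρ ^ L * J) →
      (∀ i, q0 ≤ q i) →
      (∀ j, J ≤ j → j < ρ ^ L * J → Real.log (((j : ℝ) + 1) / j) - τ / (2 * ρ ^ L) ≤
          ∑ i ∈ univ.filter (fun i => β i = j), 1 / q i ∧
        ∑ i ∈ univ.filter (fun i => β i = j), 1 / q i ≤ Real.log (((j : ℝ) + 1) / j) + τ / (2 * ρ ^ L)) →
      ∀ f : St N k → ℝ, (∀ γ, 0 ≤ f γ) → Lev β (ρ ^ L * J) f →
        ∑ γ, muP q γ * f γ * ((alive γ N).card : ℝ) ≤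
          (J + b + D * b ^ 2 + δ2) * Real.exp ((((ρ - 1) * J : ℕ) : ℝ) * τ) * (1 / b + ((L - 1 : ℕ) : ℝ) * D1) *
            ∑ γ, muP q γ * f γ := by
  classical
  have hρ0 : (0 : ℝ) < ρ := by
    have : 0 < ρ := by omega
    exact_mod_cast this
  have hJ0 : (0 : ℝ) < J := by
    have : 0 < J := by omega
    exact_mod_cast this
  have hρL : (0 : ℝ) < (ρ : ℝ) ^ L := by positivity
  set n : ℕ := ρ ^ L * J with hn
  set t : ℝ := υ0 / ρ ^ L with ht
  have ht0 : 0 < t := by positivity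
  set η : ℝ := τ / (2 * ρ ^ L) with hη
  have hη0 : 0 < η := by positivity
  set m : ℕ := (ρ - 1) * J with hm
  set S0 : ℝ := |Real.log ((n : ℝ) / J) + (n - J : ℕ) * η| with hS0
  have hS00 : 0 ≤ S0 := abs_nonneg _
  set K0 : ℝ := Real.exp (24 * k ^ 2 * S0 + 2 * k * S0) * (24 * k ^ 2 * S0 + 2 * k * (n * (6 + 5 * k * S0))) with hK0
  have hK00 : 0 ≤ K0 := by positivity
  have hD10 : 0 ≤ D1 := hD0.trans hD1
  refine ⟨4 * k + 4 + 2 * S0 / τ + K0 / (δ2 * t * ρ ^ L), by positivity, ?_⟩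
  intro N q β hβ hq hsum f hf hLev
  set q0 : ℝ := 4 * k + 4 + 2 * S0 / τ + K0 / (δ2 * t * ρ ^ L) with hq0
  have hq0k : 4 * (k : ℝ) + 4 ≤ q0 := by
    have h1 : 0 ≤ 2 * S0 / τ := by positivity
    have h2 : 0 ≤ K0 / (δ2 * t * ρ ^ L) := by positivity
    rw [hq0]; linarith
  have hq0τ : 2 * S0 / τ ≤ q0 := by
    have h2 : 0 ≤ K0 / (δ2 * t * ρ ^ L) := by positivity
    have h3 : (0 : ℝ) ≤ k := by positivity
    rw [hq0]; linarith
  have hq0K : K0 / (δ2 * t * ρ ^ L) ≤ q0 := by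
    have h2 : 0 ≤ 2 * S0 / τ := by positivity
    have h3 : (0 : ℝ) ≤ k := by positivity
    rw [hq0]; linarith
  have hq0pos : 0 < q0 := by
    have h3 : (0 : ℝ) ≤ k := by positivity
    linarith
  have hq01 : 1 ≤ q0 := by
    have h3 : (0 : ℝ) ≤ k := by positivity
    linarith
  set u : Fin N → ℝ := fun i => 1 / q i with hu
  have hqpos : ∀ i, 0 < q i := fun i => lt_of_lt_of_le hq0pos (hq i)
  have hu0 : ∀ i, 0 ≤ u i := fun i => by
    have := hqpos i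
    rw [hu]; positivity
  have huq : ∀ i, u i ≤ 1 / q0 := fun i => one_div_le_one_div_of_le hq0pos (hq i)
  have huk : ∀ i, 4 * (k : ℝ) * u i ≤ 1 := fun i => by
    calc 4 * (k : ℝ) * u i ≤ q0 * u i := mul_le_mul_of_nonneg_right (by linarith) (hu0 i)
      _ ≤ q0 * (1 / q0) := mul_le_mul_of_nonneg_left (huq i) hq0pos.le
      _ = 1 := by field_simp
  have hu2 : ∀ i, u i ≤ 1 / 2 := fun i => by
    refine (huq i).trans ?_
    apply one_div_le_one_div_of_le (by norm_num)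
    have h3 : (0 : ℝ) ≤ k := by positivity
    linarith
  -- the windows and the cells
  have hJ1 : 1 ≤ J := by omega
  have hex : ∀ i, ∃ l : ℕ, ∃ c : Fin m, l < L ∧ ρ ^ l * (J + c) ≤ β i ∧ β i < ρ ^ l * (J + c + 1) := by
    intro i
    obtain ⟨l, hl, c, h1, h2⟩ := cell_exists hρ hJ1 (hβ i).1 (hβ i).2
    exact ⟨l, c, hl, h1, h2⟩
  choose win cel hwin hcel1 hcel2 using hex
  have hcard := card_nat (J := J) hρ
  rw [← hm] at hcard
  -- masses
  have hmass : ∀ l < L, ∀ c : Fin m,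
      Real.log ((((J + c : ℕ) : ℝ) + 1) / ((J + c : ℕ) : ℝ)) - τ / 2 ≤
        ∑ i ∈ univ.filter (fun i => win i = l ∧ cel i = c), u i ∧
      ∑ i ∈ univ.filter (fun i => win i = l ∧ cel i = c), u i ≤
        Real.log ((((J + c : ℕ) : ℝ) + 1) / ((J + c : ℕ) : ℝ)) + τ / 2 := by
    intro l hl c
    have hset : univ.filter (fun i => win i = l ∧ cel i = c) =
        univ.filter (fun i => ρ ^ l * (J + c) ≤ β i ∧ β i < ρ ^ l * (J + c + 1)) := by
      ext i
      simp only [mem_filter, mem_univ, true_and]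
      constructor
      · rintro ⟨rfl, rfl⟩
        exact ⟨hcel1 i, hcel2 i⟩
      · rintro ⟨h1, h2⟩
        exact cell_unique hρ (cel i) c (hcel1 i) (hcel2 i) h1 h2
    have hc := c.2
    have h1 : ρ ^ l * (J + c + 1) ≤ ρ ^ L * J := by
      calc ρ ^ l * (J + c + 1) ≤ ρ ^ l * (ρ * J) := Nat.mul_le_mul_left _ (by omega)
        _ = ρ ^ (l + 1) * J := by ring
        _ ≤ ρ ^ L * J := Nat.mul_le_mul_right _ (Nat.pow_le_pow_right (by omega) hl)
    have hpow : 0 < ρ ^ l := by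
      have : 0 < ρ := by omega
      positivity
    have h2 : J ≤ ρ ^ l * (J + c) := by
      calc J ≤ J + c := by omega
        _ = 1 * (J + c) := by ring
        _ ≤ ρ ^ l * (J + c) := Nat.mul_le_mul_right _ hpow
    have hb := level_bounds u β J n η hsum (a := ρ ^ l * (J + c)) (b := ρ ^ l * (J + c + 1)) (by omega) h2
      (Nat.mul_le_mul_left _ (by omega)) h1
    have e1 : (((ρ ^ l * (J + c + 1) : ℕ) : ℝ) / ((ρ ^ l * (J + c) : ℕ) : ℝ)) =
        (((J + c : ℕ) : ℝ) + 1) / ((J + c : ℕ) : ℝ) := by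
      have h3 : (0 : ℝ) < (ρ : ℝ) ^ l := by positivity
      push_cast
      rw [mul_div_mul_left _ _ h3.ne']
    have e2 : ρ ^ l * (J + c + 1) - ρ ^ l * (J + c) = ρ ^ l := by
      rw [← Nat.mul_sub, Nat.add_sub_cancel_left, mul_one]
    have e3 : ((ρ ^ l : ℕ) : ℝ) * η ≤ τ / 2 := by
      rw [hη]
      push_cast
      have h4 : (ρ : ℝ) ^ l ≤ (ρ : ℝ) ^ L :=
        pow_le_pow_right₀ (by exact_mod_cast (by omega : 1 ≤ ρ)) hl.le
      calc (ρ : ℝ) ^ l * (τ / (2 * ρ ^ L)) ≤ (ρ : ℝ) ^ L * (τ / (2 * ρ ^ L)) :=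
            mul_le_mul_of_nonneg_right h4 (by positivity)
        _ = τ / 2 := by field_simp
    rw [e1, e2] at hb
    rw [hset]
    constructor
    · linarith [hb.1]
    · linarith [hb.2]
  -- the total mass
  have htot : ∑ i, u i ≤ S0 := by
    have h1 : ∑ i, u i = ∑ i ∈ univ.filter (fun i => J ≤ β i ∧ β i < n), u i := by
      rw [Finset.filter_true_of_mem]
      intro i _
      exact hβ i
    have h2 : J ≤ n := by
      have : 1 ≤ ρ ^ L := Nat.one_le_pow _ _ (by omega)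
      calc J = 1 * J := by ring
        _ ≤ ρ ^ L * J := Nat.mul_le_mul_right _ this
    rw [h1]
    exact (level_bounds u β J n η hsum (a := J) (b := n) (by omega) le_rfl h2 le_rfl).2.trans (le_abs_self _)
  have hsq : ∑ i, u i ^ 2 ≤ τ / 2 := by
    calc ∑ i, u i ^ 2 ≤ ∑ i, 1 / q0 * u i := by
          refine Finset.sum_le_sum fun i _ => ?_
          rw [sq]
          exact mul_le_mul_of_nonneg_right (huq i) (hu0 i)
      _ = 1 / q0 * ∑ i, u i := by rw [Finset.mul_sum]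
      _ ≤ 1 / q0 * S0 := mul_le_mul_of_nonneg_left htot (by positivity)
      _ ≤ τ / 2 := by
          rw [one_div, inv_mul_le_iff₀ hq0pos]
          rw [div_le_iff₀ hτ] at hq0τ
          linarith
  -- the probabilities
  have hpc : ∀ l < L, ∀ c : Fin m,
      ((J + c : ℕ) : ℝ) / (((J + c : ℕ) : ℝ) + 1) * Real.exp (-τ) ≤ 1 - pc win cel u l c ∧
      1 - pc win cel u l c ≤ ((J + c : ℕ) : ℝ) / (((J + c : ℕ) : ℝ) + 1) * Real.exp τ := by
    intro l hl c
    have hh : (0 : ℝ) < ((J + c : ℕ) : ℝ) := by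
      have : 0 < J + (c : ℕ) := by omega
      exact_mod_cast this
    exact one_sub_pc win cel u l c _ τ hh hu0 hu2 (hmass l hl c).1 (hmass l hl c).2 hsq
  have hpcpos : ∀ l < L, ∀ c : Fin m, 0 < 1 - pc win cel u l c := by
    intro l hl c
    refine lt_of_lt_of_le ?_ (hpc l hl c).1
    have hh : (0 : ℝ) < ((J + c : ℕ) : ℝ) := by
      have : 0 < J + (c : ℕ) := by omega
      exact_mod_cast this
    positivity
  have hpc0 : ∀ l (c : Fin m), 0 ≤ pc win cel u l c := by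
    intro l c
    unfold pc
    have : ∏ i ∈ univ.filter (fun i => win i = l ∧ cel i = c), (1 - u i) ≤ 1 :=
      Finset.prod_le_one (fun i _ => by linarith [hu2 i]) fun i _ => by linarith [hu0 i]
    linarith
  set δ1 : ℝ := (ρ : ℝ) * J * (Real.exp τ - 1) with hδ1def
  have hδ10 : 0 ≤ δ1 := by
    have := Real.add_one_le_exp τ
    have h1 : 0 ≤ Real.exp τ - 1 := by linarith
    positivity
  have hratio : ∀ l < L, ∀ c : Fin m, pc win cel u l c / (1 - pc win cel u l c) ≤ (1 + δ1) / ((J + c : ℕ) : ℝ) := by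
    intro l hl c
    have hh : (0 : ℝ) < ((J + c : ℕ) : ℝ) := by
      have : 0 < J + (c : ℕ) := by omega
      exact_mod_cast this
    refine ratio_le (M := (ρ : ℝ) * J) hh ?_ (hpc l hl c).1 hτ.le le_rfl
    have hc := c.2
    have : J + (c : ℕ) + 1 ≤ ρ * J := by omega
    exact_mod_cast this
  have hhalf : ∀ l < L, ∀ c : Fin m, pc win cel u l c ≤ 1 / 2 := by
    intro l hl c
    have h1 := hratio l hl c
    have hh : (2 : ℝ) ≤ ((J + c : ℕ) : ℝ) := by
      have : 2 ≤ J + (c : ℕ) := by omega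
      exact_mod_cast this
    have h2 : (1 + δ1) / ((J + c : ℕ) : ℝ) ≤ 1 := by
      rw [div_le_one (by linarith)]
      linarith
    have h3 := h1.trans h2
    rw [div_le_one (hpcpos l hl c)] at h3
    linarith
  set v : ℕ → ℕ := fun l => ρ ^ l with hv
  set B : ℕ → ℝ := fun l => BB b D1 l with hB
  have hP : ∀ l < L, (ρ : ℝ) * Real.exp (-(((ρ - 1) * J : ℕ) * τ)) ≤ (∏ c, (1 - pc win cel u l c))⁻¹ := by
    intro l hl
    exact prod_inv_ge ρ J hρ hJ1 _ τ (hpcpos l hl) fun c => (hpc l hl c).2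
  obtain ⟨K, Kr, φ, hKs, hKp, hKc, hKl⟩ := hSite N L k win cel u v t B D hL hwin (fun i => ⟨hu0 i, hu2 i⟩) ht0
    (by
      intro l hl
      refine ⟨Nat.one_le_pow _ _ (by omega), ?_⟩
      rw [hv, ht]
      simp only
      push_cast
      have h4 : (ρ : ℝ) ^ l ≤ (ρ : ℝ) ^ L :=
        pow_le_pow_right₀ (by exact_mod_cast (by omega : 1 ≤ ρ)) hl.le
      calc (ρ : ℝ) ^ l * (υ0 / ρ ^ L) ≤ (ρ : ℝ) ^ L * (υ0 / ρ ^ L) :=
            mul_le_mul_of_nonneg_right h4 (by positivity)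
        _ = υ0 := by field_simp)
    (fun l _ => ⟨BB_pos hb hD10 l, (BB_le hb hD10 l).trans hbB⟩) hhalf
    (by
      intro l hl
      refine le_trans ?_ hD
      have h1 := sum_cells_le ρ J hρ hJ1 (fun c => pc win cel u l c / (1 - pc win cel u l c)) δ1 hδ10
        (fun c => div_nonneg (hpc0 l c) (hpcpos l hl c).le) (hratio l hl)
      have h2 : 0 ≤ 1 / 2 + ε1 := by linarith
      have h3 := mul_le_mul_of_nonneg_left h1 h2
      unfold EV
      linarith)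
    (by
      intro l hl
      have h1 := hP l (by omega)
      have h2 := BB_rec (x := (((ρ - 1) * J : ℕ) : ℝ) * τ) hb hD0 hD1 (l := l) (L := L) (by omega) (by positivity) hrec
      have hBl : 0 < B l := BB_pos hb hD10 l
      have hvl : (0 : ℝ) < (ρ : ℝ) ^ l := by positivity
      calc ((v (l + 1) : ℕ) : ℝ) * (B (l + 1) + D * B (l + 1) ^ 2)
          ≤ ((v (l + 1) : ℕ) : ℝ) * (Real.exp (-((((ρ - 1) * J : ℕ) : ℝ) * τ)) * B l) :=
            mul_le_mul_of_nonneg_left h2 (by positivity)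
        _ = (ρ : ℝ) * Real.exp (-(((ρ - 1) * J : ℕ) * τ)) * ((v l : ℕ) * B l) := by
            rw [hv]; push_cast; ring
        _ ≤ (∏ c, (1 - pc win cel u l c))⁻¹ * ((v l : ℕ) * B l) :=
            mul_le_mul_of_nonneg_right h1 (by positivity))
  -- all sites
  set ν : Fin N → ℕ := fun i => v (win i) * (J + (cel i : ℕ)) with hν
  have hνβ : ∀ i, ν i ≤ β i := fun i => hcel1 i
  have hν1 : ∀ i, 1 ≤ ν i := fun i => by
    rw [hν]
    have h1 : 0 < v (win i) := Nat.pow_pos (by omega)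
    exact Nat.mul_pos h1 (by omega)
  have hνn : ∀ i, ν i ≤ n := fun i => (hνβ i).trans (hβ i).2.le
  have hLev' : Lev ν n f := Lev_mono hνβ hLev
  set X : ℝ := v (L - 1) * t * (∏ c, (1 - pc win cel u (L - 1) c))⁻¹ * B (L - 1) with hX
  set Y : ℝ := v 0 * t * (B 0 + D * B 0 ^ 2) with hY
  have hmul := hM N k n u ν t (Real.exp (4 * k * ∑ i, u i ^ 2)) K Kr φ
    (fun T => (if T = ∅ then X else 0) - Y) f
    (fun i => ⟨hu0 i, by linarith [huk i, mul_nonneg (Nat.cast_nonneg (α := ℝ) k) (hu0 i)]⟩) ht0 (Real.exp_pos _).le hf hLev' hKs hKp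
    hKc hKl
  have hn0 : 0 < n := by
    have h1 : 0 < ρ ^ L := Nat.pow_pos (by omega)
    exact Nat.mul_pos h1 (by omega)
  have hhits := hH N k n u ν f hn0 hνn (fun i => ⟨hu0 i, huk i⟩) hf hLev'
  set F : ℝ := ∑ γ, muU u γ * f γ with hF
  have hmuU : ∀ γ : St N k, 0 ≤ muU u γ := muU_nonneg hu0 fun i => by
    linarith [huk i, mul_nonneg (Nat.cast_nonneg (α := ℝ) k) (hu0 i)]
  have hF0 : 0 ≤ F := Finset.sum_nonneg fun γ _ => mul_nonneg (hmuU γ) (hf γ)
  have herr : ∑ γ, muU u γ * f γ * (Real.exp (4 * k * ∑ i, u i ^ 2) ^ k *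
      Real.exp (∑ i, (20 * k ^ 2 * u i ^ 2 + if γ i = none then 0 else 2 * k * u i)) - 1) ≤ K0 / q0 * F := by
    calc ∑ γ, muU u γ * f γ * (Real.exp (4 * k * ∑ i, u i ^ 2) ^ k *
          Real.exp (∑ i, (20 * k ^ 2 * u i ^ 2 + if γ i = none then 0 else 2 * k * u i)) - 1)
        ≤ ∑ γ, muU u γ * f γ * (Real.exp (24 * k ^ 2 * S0 + 2 * k * S0) / q0 *
            (24 * k ^ 2 * S0 + 2 * k * ∑ i, if γ i = none then 0 else (ν i : ℝ))) :=
          Finset.sum_le_sum fun γ _ => mul_le_mul_of_nonneg_left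
            (err_le u ν q0 S0 hq01 hu0 huq hν1 htot γ) (mul_nonneg (hmuU γ) (hf γ))
      _ = Real.exp (24 * k ^ 2 * S0 + 2 * k * S0) / q0 * (24 * k ^ 2 * S0 * F +
            2 * k * ∑ γ, muU u γ * f γ * ∑ i, if γ i = none then 0 else (ν i : ℝ)) := by
          rw [hF, Finset.mul_sum, Finset.mul_sum, ← Finset.sum_add_distrib, Finset.mul_sum]
          refine Finset.sum_congr rfl fun γ _ => ?_
          ring
      _ ≤ Real.exp (24 * k ^ 2 * S0 + 2 * k * S0) / q0 * (24 * k ^ 2 * S0 * F +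
            2 * k * (n * (6 + 5 * k * S0) * F)) := by
          refine mul_le_mul_of_nonneg_left ?_ (by positivity)
          have h1 : (n : ℝ) * (6 + 5 * k * ∑ i, u i) * F ≤ n * (6 + 5 * k * S0) * F := by gcongr
          have h2 := hhits.trans h1
          have h3 : (0 : ℝ) ≤ 2 * k := by positivity
          linarith [mul_le_mul_of_nonneg_left h2 h3]
      _ = K0 / q0 * F := by rw [hK0]; ring
  have hLB : ∑ γ, muU u γ * f γ * ∑ a, ((if Ta γ a = ∅ then X else 0) - Y) =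
      X * ∑ γ, muU u γ * f γ * ((alive γ N).card : ℝ) - k * Y * F := by
    rw [hF, Finset.mul_sum, Finset.mul_sum, ← Finset.sum_sub_distrib]
    refine Finset.sum_congr rfl fun γ _ => ?_
    rw [sum_LB]
    ring
  rw [hLB] at hmul
  set R : ℝ := ∑ γ, muU u γ * f γ * ((alive γ N).card : ℝ) with hR
  have hR0 : 0 ≤ R := Finset.sum_nonneg fun γ _ => mul_nonneg (mul_nonneg (hmuU γ) (hf γ)) (by positivity)
  have hgoal : ∑ γ, muP q γ * f γ * ((alive γ N).card : ℝ) = R :=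
    Finset.sum_congr rfl fun γ _ => by rw [muP_eq]
  have hgoal2 : ∑ γ, muP q γ * f γ = F := Finset.sum_congr rfl fun γ _ => by rw [muP_eq]
  rw [hgoal, hgoal2]
  have hBL : 0 < BB b D1 (L - 1) := BB_pos hb hD10 _
  have hXge : (ρ : ℝ) ^ L * t * Real.exp (-((((ρ - 1) * J : ℕ) : ℝ) * τ)) * BB b D1 (L - 1) ≤ X := by
    have h1 := hP (L - 1) (by omega)
    have h2 : (ρ : ℝ) ^ L = ρ ^ (L - 1) * ρ := by
      rw [← pow_succ]
      congr 1
      omega
    rw [hX, h2, hv]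
    simp only
    push_cast
    calc (ρ : ℝ) ^ (L - 1) * ρ * t * Real.exp (-((((ρ - 1 : ℕ) : ℝ) * J) * τ)) * BB b D1 (L - 1)
        = (ρ : ℝ) ^ (L - 1) * t * (ρ * Real.exp (-((((ρ - 1 : ℕ) : ℝ) * J) * τ))) * BB b D1 (L - 1) := by ring
      _ ≤ (ρ : ℝ) ^ (L - 1) * t * (∏ c, (1 - pc win cel u (L - 1) c))⁻¹ * BB b D1 (L - 1) := by
          refine mul_le_mul_of_nonneg_right ?_ hBL.le
          refine mul_le_mul_of_nonneg_left ?_ (by positivity)
          refine le_trans (le_of_eq ?_) h1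
          push_cast
          ring
  have hYeq : Y = t * (b + D * b ^ 2) := by
    rw [hY, hv, hB]
    simp only [BB_zero, pow_zero, Nat.cast_one, one_mul]
  have hkY : k * Y * F ≤ (ρ : ℝ) ^ L * t * (b + D * b ^ 2) * F := by
    rw [hYeq]
    have h1 : (k : ℝ) ≤ (ρ : ℝ) ^ L := by exact_mod_cast hk
    calc k * (t * (b + D * b ^ 2)) * F ≤ (ρ : ℝ) ^ L * (t * (b + D * b ^ 2)) * F := by gcongr
      _ = _ := by ring
  have hKq : K0 / q0 * F ≤ (ρ : ℝ) ^ L * t * δ2 * F := by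
    refine mul_le_mul_of_nonneg_right ?_ hF0
    rw [div_le_iff₀ hq0pos]
    rw [div_le_iff₀ (by positivity)] at hq0K
    linarith
  have hnt : (n : ℝ) * t * F = (ρ : ℝ) ^ L * t * J * F := by
    rw [hn]; push_cast; ring
  have h5 : (ρ : ℝ) ^ L * t * Real.exp (-((((ρ - 1) * J : ℕ) : ℝ) * τ)) * BB b D1 (L - 1) * R ≤
      (ρ : ℝ) ^ L * t * ((J + b + D * b ^ 2 + δ2) * F) := by
    have h6 := mul_le_mul_of_nonneg_right hXge hR0
    have h7 : X * R ≤ n * t * F + k * Y * F + K0 / q0 * F := by linarith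
    calc _ ≤ X * R := h6
      _ ≤ n * t * F + k * Y * F + K0 / q0 * F := h7
      _ ≤ (ρ : ℝ) ^ L * t * J * F + (ρ : ℝ) ^ L * t * (b + D * b ^ 2) * F + (ρ : ℝ) ^ L * t * δ2 * F := by linarith
      _ = _ := by ring
  have h8 : Real.exp (-((((ρ - 1) * J : ℕ) : ℝ) * τ)) * BB b D1 (L - 1) * R ≤ (J + b + D * b ^ 2 + δ2) * F := by
    have h9 : 0 < (ρ : ℝ) ^ L * t := by positivity
    refine le_of_mul_le_mul_left ?_ h9
    calc (ρ : ℝ) ^ L * t * (Real.exp (-((((ρ - 1) * J : ℕ) : ℝ) * τ)) * BB b D1 (L - 1) * R) =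
        (ρ : ℝ) ^ L * t * Real.exp (-((((ρ - 1) * J : ℕ) : ℝ) * τ)) * BB b D1 (L - 1) * R := by ring
      _ ≤ _ := h5
  rw [← BB_inv hb (L - 1)]
  set E := Real.exp ((((ρ - 1) * J : ℕ) : ℝ) * τ) with hE
  have hEpos : 0 < E := Real.exp_pos _
  have hEE : Real.exp (-((((ρ - 1) * J : ℕ) : ℝ) * τ)) = E⁻¹ := by rw [hE, Real.exp_neg]
  rw [hEE] at h8
  calc R = E * (BB b D1 (L - 1))⁻¹ * (E⁻¹ * BB b D1 (L - 1) * R) := by
        field_simp
    _ ≤ E * (BB b D1 (L - 1))⁻¹ * ((J + b + D * b ^ 2 + δ2) * F) :=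
        mul_le_mul_of_nonneg_left h8 (by positivity)
    _ = _ := by ring

end Pool.Agent.U136.NWS
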