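import Pool.Agent.U136.NWS.FinStm2
import Pool.Agent.N422.SL.AB

/-! Project NWS (helper136): from the model to weights of level `Q`. -/

set_option autoImplicit false

open Finset

namespace Pool.Agent.U136.NWS

open Pool.Agent.N422.NW Pool.Agent.N422.NWS Pool.Agent.N422.SL

theorem t_FIN1 (hP : S_PSs) (hAR : Pool.Agent.N422.NW.S_AR) (hMer : S_MER) (hMer2 : S_MER2) : S_FIN1 := by
  classical
  intro ε hε
  obtain ⟨C, hC, h⟩ := hP ε hε
  refine ⟨C, hC, fun k hk B => ?_⟩
  obtain ⟨m, n, η, q0, hm, hmn, hη, hq0, hmod⟩ := h k hk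
  have hn0 : 0 < n := by omega
  have hnr : (0 : ℝ) < n := by exact_mod_cast hn0
  obtain ⟨Q1, hQ1⟩ := hMer m n ((k : ℝ) ^ 2 * max B 0) η hm hmn hη
  obtain ⟨Q1', hQ1'⟩ := hMer2 m n η hm hmn hη
  obtain ⟨Y0, hY0⟩ := exists_nat_ge (max (k : ℝ) q0)
  have hY1 : (k : ℝ) ≤ Y0 := (le_max_left _ _).trans hY0
  have hY2 : q0 ≤ Y0 := (le_max_right _ _).trans hY0
  have hY3 : (0 : ℝ) < Y0 := lt_of_lt_of_le hq0 hY2
  obtain ⟨Q2, hQ2⟩ := (Filter.tendsto_atTop.1 (Real.tendsto_log_atTop.comp tendsto_natCast_atTop_atTop)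
    ((n : ℝ) * Real.log Y0 + 1)).exists_forall_of_atTop
  refine ⟨max Q1 (max Q2 (max Q1' 1)), ?_⟩
  intro Q hQ H hH hHB c hc
  have hQa : Q1 ≤ Q := (le_max_left _ _).trans hQ
  have hQb : Q2 ≤ Q := (le_max_left _ _).trans ((le_max_right _ _).trans hQ)
  have hQd : Q1' ≤ Q := (le_max_left _ _).trans ((le_max_right _ _).trans ((le_max_right _ _).trans hQ))
  have hQc : 1 ≤ Q := (le_max_right _ _).trans ((le_max_right _ _).trans ((le_max_right _ _).trans hQ))
  have hlogY : 0 ≤ Real.log (Y0 : ℝ) := Real.log_natCast_nonneg Y0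
  have hlogQ : (n : ℝ) * Real.log Y0 + 1 ≤ Real.log Q := hQ2 Q hQb
  have hlogQ0 : 0 < Real.log Q := by
    have : 0 ≤ (n : ℝ) * Real.log Y0 := by positivity
    linarith
  have hQr : (0 : ℝ) < Q := by exact_mod_cast hQc
  -- large primes
  have hbig : ∀ p : ℕ, 0 < p → (m : ℝ) * Real.log Q < n * Real.log p → Y0 < p := by
    intro p hp0 h
    have hmr : (1 : ℝ) ≤ m := by exact_mod_cast hm
    have h1 : (n : ℝ) * Real.log Y0 < n * Real.log p := by nlinarith
    have h2 : Real.log Y0 < Real.log p := lt_of_mul_lt_mul_left h1 hnr.le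
    have h5 := (Real.log_lt_log_iff hY3 (by exact_mod_cast hp0)).1 h2
    exact_mod_cast h5
  -- the primes dividing a difference
  obtain ⟨D, hD⟩ : ∃ D, D = ∏ z ∈ (H ×ˢ H).filter (fun z => z.1 < z.2), (z.2 - z.1) := ⟨_, rfl⟩
  have hD0 : 0 < D := by
    rw [hD]
    refine prod_pos fun z hz => ?_
    rw [mem_filter] at hz
    omega
  have hlD : Real.log D ≤ (k : ℝ) ^ 2 * max B 0 * Real.log Q := by
    rw [hD]
    push_cast
    rw [Real.log_prod (by
      intro z hz
      rw [mem_filter] at hz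
      have : 0 < z.2 - z.1 := by omega
      exact_mod_cast this.ne')]
    have hmB : 0 ≤ max B 0 * Real.log Q := mul_nonneg (le_max_right _ _) hlogQ0.le
    have h1 : ∀ z ∈ (H ×ˢ H).filter (fun z => z.1 < z.2),
        Real.log ((z.2 - z.1 : ℕ) : ℝ) ≤ max B 0 * Real.log Q := by
      intro z hz
      rw [mem_filter, mem_product] at hz
      have h2 := hHB z.2 hz.1.2
      have h5 : ((z.2 - z.1 : ℕ) : ℝ) ≤ (Q : ℝ) ^ B := by
        have : ((z.2 - z.1 : ℕ) : ℝ) ≤ z.2 := by exact_mod_cast Nat.sub_le _ _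
        linarith
      have h6 : Real.log ((z.2 - z.1 : ℕ) : ℝ) ≤ B * Real.log Q := by
        rw [← Real.log_rpow hQr]
        apply Real.log_le_log _ h5
        exact_mod_cast (by omega : 0 < z.2 - z.1)
      exact h6.trans (mul_le_mul_of_nonneg_right (le_max_left _ _) hlogQ0.le)
    refine (sum_le_sum h1).trans ?_
    rw [sum_const, nsmul_eq_mul, mul_assoc]
    apply mul_le_mul_of_nonneg_right _ hmB
    have h2 : ((H ×ˢ H).filter (fun z => z.1 < z.2)).card ≤ k ^ 2 := by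
      refine (card_filter_le _ _).trans ?_
      rw [card_product, hH, sq]
    exact_mod_cast h2
  obtain ⟨Bd, hBd⟩ : ∃ Bd : Finset ℕ, Bd = ((Icc 1 Q).filter Nat.Prime).filter (fun p => p ∣ D) := ⟨_, rfl⟩
  have hBdp : ∀ p ∈ Bd, p.Prime ∧ p ∣ D := fun p hp => by
    rw [hBd, mem_filter, mem_filter] at hp
    exact ⟨hp.1.2, hp.2⟩
  have hmer := hQ1 Q hQa Bd (fun p hp => (hBdp p hp).1) ((AB_lg hD0 hBdp).trans hlD)
  have hmer2 := hQ1' Q hQd
  -- the places
  obtain ⟨P, hPdef⟩ : ∃ P : Finset ℕ, P = ((Icc 1 Q).filter Nat.Prime).filter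
      (fun p : ℕ => p ∉ Bd ∧ (m : ℝ) * Real.log Q < n * Real.log p) := ⟨_, rfl⟩
  have hP' : ∀ p, p ∈ P ↔ (1 ≤ p ∧ p ≤ Q) ∧ p.Prime ∧ p ∉ Bd ∧ (m : ℝ) * Real.log Q < n * Real.log p := by
    intro p
    rw [hPdef, mem_filter, mem_filter, mem_Icc]
    tauto
  set N := P.card with hN
  set e := P.equivFin with he
  set q : Fin N → ℕ := fun i => (e.symm i : ℕ) with hq
  have hqP : ∀ i, q i ∈ P := fun i => (e.symm i).2
  have hqinj : Function.Injective q := fun i j hij => e.symm.injective (Subtype.ext hij)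
  have hqsurj : ∀ p ∈ P, ∃ i, q i = p := fun p hp => ⟨e ⟨p, hp⟩, by rw [hq]; simp⟩
  have hsumq : ∀ (F : ℕ → ℝ) (T : Finset ℕ), T ⊆ P →
      ∑ i ∈ univ.filter (fun i => q i ∈ T), F (q i) = ∑ p ∈ T, F p := by
    intro F T hT
    refine Finset.sum_bij (fun i _ => q i) ?_ ?_ ?_ ?_
    · intro i hi
      exact (mem_filter.1 hi).2
    · intro i _ j _ hij
      exact hqinj hij
    · intro p hp
      obtain ⟨i, hi⟩ := hqsurj p (hT hp)
      exact ⟨i, mem_filter.2 ⟨mem_univ _, by rw [hi]; exact hp⟩, hi⟩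
    · intro i _; rfl
  have hlogp : ∀ p ∈ P, Real.log p ≤ Real.log Q := fun p hp => by
    have h := (hP' p).1 hp
    exact Real.log_le_log (by exact_mod_cast h.1.1) (by exact_mod_cast h.1.2)
  have hspec : ∀ p ∈ P, m ≤ AB_blk n Q p ∧ AB_blk n Q p < n ∧
      (AB_blk n Q p : ℝ) * Real.log Q < n * Real.log p ∧
      n * Real.log p ≤ ((AB_blk n Q p : ℝ) + 1) * Real.log Q := fun p hp =>
    AB_blk_spec (m := m) (n := n) (Q := Q) (p := p) hm hlogQ0 ((hP' p).1 hp).2.2.2 (hlogp p hp)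
  set β : Fin N → ℕ := fun i => AB_blk n Q (q i) with hβ
  have hqY : ∀ i, Y0 < q i := fun i => by
    have h := (hP' _).1 (hqP i)
    exact hbig _ h.1.1 h.2.2.2
  -- the blocks
  have hblock : ∀ j, m ≤ j → j < n → ∑ i ∈ univ.filter (fun i => β i = j), 1 / ((q i : ℕ) : ℝ) =
      ∑ p ∈ ((Icc 1 Q).filter Nat.Prime).filter (fun p => p ∉ Bd ∧
        (j : ℝ) * Real.log Q < n * Real.log p ∧ n * Real.log p ≤ ((j : ℝ) + 1) * Real.log Q), 1 / (p : ℝ) := by
    intro j hj1 hj2
    have hT : ((Icc 1 Q).filter Nat.Prime).filter (fun p => p ∉ Bd ∧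
        (j : ℝ) * Real.log Q < n * Real.log p ∧ n * Real.log p ≤ ((j : ℝ) + 1) * Real.log Q) ⊆ P := by
      intro p hp
      rw [mem_filter, mem_filter, mem_Icc] at hp
      rw [hP']
      refine ⟨hp.1.1, hp.1.2, hp.2.1, lt_of_le_of_lt ?_ hp.2.2.1⟩
      have : (m : ℝ) ≤ j := by exact_mod_cast hj1
      exact mul_le_mul_of_nonneg_right this hlogQ0.le
    rw [← hsumq (fun p => 1 / (p : ℝ)) _ hT]
    refine Finset.sum_congr ?_ fun _ _ => rfl
    ext i
    simp only [mem_filter, mem_univ, true_and]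
    have hi := (hP' _).1 (hqP i)
    have hs := hspec _ (hqP i)
    constructor
    · intro hb
      have hb' : AB_blk n Q (q i) = j := hb
      rw [hb'] at hs
      exact ⟨⟨mem_Icc.2 hi.1, hi.2.1⟩, hi.2.2.1, hs.2.2.1, hs.2.2.2⟩
    · rintro ⟨_, _, h1, h2⟩
      exact AB_blk_unique hlogQ0 h1 h2
  have hmodel := hmod N (fun i => ((q i : ℕ) : ℝ)) β
    (fun i => ⟨(hspec _ (hqP i)).1, (hspec _ (hqP i)).2.1⟩)
    (fun i => hY2.trans (by
      have := hqY i
      have h1 : (Y0 : ℝ) < (q i : ℕ) := by exact_mod_cast this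
      exact h1.le))
    (fun j hj1 hj2 => by
      rw [hblock j hj1 hj2]
      refine ⟨hmer j hj1 hj2, le_trans ?_ (hmer2 j hj1 hj2)⟩
      refine Finset.sum_le_sum_of_subset_of_nonneg ?_ fun p _ _ => by positivity
      intro p hp
      rw [mem_filter] at hp ⊢
      exact ⟨hp.1, hp.2.2⟩)
  -- the sites
  set hs : Fin k → ℕ := fun a => H.orderEmbOfFin hH a with hhs
  have hsinj : Function.Injective hs := (H.orderEmbOfFin hH).injective
  have hsmem : ∀ a, hs a ∈ H := fun a => H.orderEmbOfFin_mem hH a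
  have hssurj : ∀ x ∈ H, ∃ a, hs a = x := by
    intro x hx
    have h1 : x ∈ Set.range (H.orderEmbOfFin hH) := by
      rw [Finset.range_orderEmbOfFin]
      exact hx
    obtain ⟨a, ha⟩ := h1
    exact ⟨a, ha⟩
  have hM0 : 0 < Q.factorial := Nat.factorial_pos Q
  have hmain := hAR N k hs q β n Q Q.factorial (fun d x => c d (x % d))
    ((Real.exp (-Real.eulerMascheroniConstant) / 2 + ε) * Real.log k + C) hqinj
    (fun i => ⟨((hP' _).1 (hqP i)).2.1, by
      have h1 := hqY i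
      have h2 : k ≤ Y0 := by exact_mod_cast hY1
      omega⟩)
    (by
      intro i x a a' h1 h2
      by_contra hne
      have hi := (hP' _).1 (hqP i)
      apply hi.2.2.1
      rw [hBd, mem_filter, mem_filter, mem_Icc]
      refine ⟨⟨hi.1, hi.2.1⟩, ?_⟩
      have hne' : hs a ≠ hs a' := fun h => hne (hsinj h)
      have key : ∀ b b' : Fin k, hs b < hs b' → q i ∣ x + hs b → q i ∣ x + hs b' → q i ∣ D := by
        intro b b' hlt h3 h4
        have h5 : q i ∣ hs b' - hs b := by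
          have h6 := Nat.dvd_sub h4 h3
          have h7 : x + hs b' - (x + hs b) = hs b' - hs b := by omega
          rwa [h7] at h6
        refine h5.trans ?_
        rw [hD]
        exact dvd_prod_of_mem (fun z : ℕ × ℕ => z.2 - z.1)
          (mem_filter.2 ⟨mem_product.2 ⟨hsmem b, hsmem b'⟩, hlt⟩ : (hs b, hs b') ∈ _)
      rcases lt_or_gt_of_ne hne' with h3 | h3
      · exact key a a' h3 h1 h2
      · exact key a' a h3 h2 h1)
    hM0
    (fun i => Nat.dvd_factorial ((hP' _).1 (hqP i)).1.1 ((hP' _).1 (hqP i)).1.2)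
    (by
      intro d hd
      rw [mem_Icc] at hd
      refine ⟨fun x => ?_, Nat.dvd_factorial (by omega) hd.2⟩
      simp only [Nat.add_mod_right])
    (fun x => hc x)
    (by
      intro d hd
      rw [mem_Icc] at hd
      have h1 : ∑ i ∈ univ.filter (fun i => q i ∣ d), ((β i : ℕ) : ℝ) * Real.log Q ≤
          ∑ i ∈ univ.filter (fun i => q i ∣ d), (n : ℝ) * Real.log (q i : ℕ) :=
        Finset.sum_le_sum fun i _ => (hspec _ (hqP i)).2.2.1.le
      have h2 : ∑ i ∈ univ.filter (fun i => q i ∣ d), Real.log (q i : ℕ) ≤ Real.log d := by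
        have h3 : ∑ i ∈ univ.filter (fun i => q i ∣ d), Real.log (q i : ℕ) =
            ∑ p ∈ P.filter (fun p => p ∣ d), Real.log p := by
          rw [← hsumq (fun p => Real.log p) _ (Finset.filter_subset _ _)]
          refine Finset.sum_congr ?_ fun _ _ => rfl
          ext i
          simp only [mem_filter, mem_univ, true_and]
          exact ⟨fun h => ⟨hqP i, h⟩, fun h => h.2⟩
        rw [h3]
        refine AB_lg (by omega) fun p hp => ?_
        rw [mem_filter] at hp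
        exact ⟨((hP' p).1 hp.1).2.1, hp.2⟩
      have h3 : Real.log d ≤ Real.log Q :=
        Real.log_le_log (by exact_mod_cast hd.1) (by exact_mod_cast hd.2)
      rw [← Finset.sum_mul, ← Finset.mul_sum] at h1
      have h4 : (∑ i ∈ univ.filter (fun i => q i ∣ d), ((β i : ℕ) : ℝ)) * Real.log Q ≤ n * Real.log Q := by
        refine h1.trans (mul_le_mul_of_nonneg_left (h2.trans h3) hnr.le)
      have h5 := le_of_mul_le_mul_right h4 hlogQ0
      exact_mod_cast h5)
    hmodel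
  refine le_trans ?_ hmain
  refine Finset.sum_le_sum fun x _ => ?_
  refine mul_le_mul_of_nonneg_left ?_ (hc x)
  have hcard : rgh Q H x ≤ (univ.filter (fun a : Fin k => ∀ i, ¬ q i ∣ x + hs a)).card := by
    unfold rgh
    have hsub : H.filter (fun h => ∀ p ∈ (Icc 1 Q).filter Nat.Prime, ¬ p ∣ x + h) ⊆
        (univ.filter (fun a : Fin k => ∀ i, ¬ q i ∣ x + hs a)).image hs := by
      intro y hy
      rw [mem_filter] at hy
      obtain ⟨a, ha⟩ := hssurj y hy.1
      rw [mem_image]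
      refine ⟨a, mem_filter.2 ⟨mem_univ _, fun i => ?_⟩, ha⟩
      rw [ha]
      have hi := (hP' _).1 (hqP i)
      exact hy.2 (q i) (mem_filter.2 ⟨mem_Icc.2 hi.1, hi.2.1⟩)
    exact (Finset.card_le_card hsub).trans Finset.card_image_le
  exact_mod_cast hcard

end Pool.Agent.U136.NWS
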