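import Pool.Agent.N422.NWS.Stm

/-! Project NWS (helper136): the final statements. -/

set_option autoImplicit false

open Finset

namespace Pool.Agent.U136.NWS

/-- the weight `w(n) = ∑_{d ≤ Q} c_d(n mod d)`, an arbitrary real weight of level `Q` -/
noncomputable def wt (Q : ℕ) (c : ℕ → ℕ → ℝ) (n : ℕ) : ℝ := ∑ d ∈ Icc 1 Q, c d (n % d)

/-- the number of `h ∈ H` for which `n + h` has no prime factor `p ≤ Q` -/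
def rgh (Q : ℕ) (H : Finset ℕ) (n : ℕ) : ℕ :=
  (H.filter (fun h => ∀ p ∈ (Icc 1 Q).filter Nat.Prime, ¬ p ∣ n + h)).card

/-- the limit for rough numbers (NWS/FIN1), from `S_PSs`, `NW.S_AR`, `NW.S_MER`, `S_MER2` -/
def S_FIN1 : Prop := ∀ ε : ℝ, 0 < ε → ∃ C : ℝ, 0 ≤ C ∧ ∀ k : ℕ, 1 ≤ k → ∀ B : ℝ, ∃ Q₀ : ℕ, ∀ Q : ℕ, Q₀ ≤ Q →
  ∀ H : Finset ℕ, H.card = k → (∀ h ∈ H, (h : ℝ) ≤ (Q : ℝ) ^ B) → ∀ c : ℕ → ℕ → ℝ, (∀ n, 0 ≤ wt Q c n) →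
    ∑ n ∈ range Q.factorial, wt Q c n * (rgh Q H n : ℝ) ≤
      ((Real.exp (-Real.eulerMascheroniConstant) / 2 + ε) * Real.log k + C) * ∑ n ∈ range Q.factorial, wt Q c n

/-- the limit for primes (NWS/FIN2), from `S_FIN1`, `NW.S_VQ` -/
def S_FIN2 : Prop := ∀ ε : ℝ, 0 < ε → ∃ C : ℝ, 0 ≤ C ∧ ∀ k : ℕ, 1 ≤ k → ∀ B : ℝ, ∃ Q₀ : ℕ, ∀ Q : ℕ, Q₀ ≤ Q →
  ∀ H : Finset ℕ, H.card = k → (∀ h ∈ H, (h : ℝ) ≤ (Q : ℝ) ^ B) → ∀ c : ℕ → ℕ → ℝ, (∀ n, 0 ≤ wt Q c n) →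
    ∀ θ x : ℝ, 0 < θ → 1 < x → (Q : ℝ) ≤ x ^ θ →
    (∑ n ∈ range Q.factorial, wt Q c n * (rgh Q H n : ℝ)) / ((Q.factorial.totient : ℝ) * Real.log x) ≤
      θ * ((1 / 2 + ε) * Real.log k + C) * ((∑ n ∈ range Q.factorial, wt Q c n) / (Q.factorial : ℝ))

end Pool.Agent.U136.NWS
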