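import Pool.Agent.U136.NWS.FinStm

/-! Project NWS (helper136): the primes relative to a periodic weight. -/

set_option autoImplicit false

open Finset Filter Topology

namespace Pool.Agent.U136.NWS

/-- the number of primes among the `n + h`, `h ∈ H` -/
def prm (H : Finset ℕ) (n : ℕ) : ℕ := (H.filter (fun h => (n + h).Prime)).card

/-- the density of the primes relative to a weight of level `Q` (NWS/PR), from the prime number theorem in residue
classes `Pool.Agent.Cov.PNT.pnt_residueClass` -/
def S_PR : Prop := ∀ (Q : ℕ) (H : Finset ℕ) (c : ℕ → ℕ → ℝ),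
  Tendsto (fun X : ℕ => Real.log X / X * ∑ n ∈ range X, wt Q c n * (prm H n : ℝ)) atTop
    (𝓝 ((∑ n ∈ range Q.factorial, wt Q c n * (rgh Q H n : ℝ)) / (Q.factorial.totient : ℝ)))

end Pool.Agent.U136.NWS
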