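import Pool.Agent.U136.NWS.Cells

/-! Project NWS (helper136): the probabilities of the cells and the constant `D`. -/

set_option autoImplicit false

open Finset

namespace Pool.Agent.U136.NWS

open Pool.Agent.N422.NW Pool.Agent.N422.NWS

lemma card_nat {ρ J : ℕ} (hρ : 2 ≤ ρ) : J + (ρ - 1) * J = ρ * J := by
  have : ρ = (ρ - 1) + 1 := by omega
  conv_rhs => rw [this]
  ring

/-- bounds for `1 - pc` -/
lemma one_sub_pc {N m : ℕ} (win : Fin N → ℕ) (cel : Fin N → Fin m) (u : Fin N → ℝ) (l : ℕ) (c : Fin m)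
    (h τ : ℝ) (hh : 0 < h) (h0 : ∀ i, 0 ≤ u i) (h1 : ∀ i, u i ≤ 1 / 2)
    (hlo : Real.log ((h + 1) / h) - τ / 2 ≤ ∑ i ∈ univ.filter (fun i => win i = l ∧ cel i = c), u i)
    (hup : ∑ i ∈ univ.filter (fun i => win i = l ∧ cel i = c), u i ≤ Real.log ((h + 1) / h) + τ / 2)
    (hsq : ∑ i, u i ^ 2 ≤ τ / 2) :
    h / (h + 1) * Real.exp (-τ) ≤ 1 - pc win cel u l c ∧ 1 - pc win cel u l c ≤ h / (h + 1) * Real.exp τ := by
  have hb := prod_bounds (univ.filter (fun i => win i = l ∧ cel i = c)) u (fun i _ => h0 i) (fun i _ => h1 i)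
  have hsq' : ∑ i ∈ univ.filter (fun i => win i = l ∧ cel i = c), u i ^ 2 ≤ τ / 2 := by
    refine le_trans ?_ hsq
    exact Finset.sum_le_sum_of_subset_of_nonneg (Finset.subset_univ _) fun i _ _ => sq_nonneg _
  have hτ : 0 ≤ τ := by
    have : 0 ≤ ∑ i, u i ^ 2 := Finset.sum_nonneg fun i _ => sq_nonneg _
    linarith
  have e : 1 - pc win cel u l c = ∏ i ∈ univ.filter (fun i => win i = l ∧ cel i = c), (1 - u i) := by
    unfold pc; ring
  have e1 : h / (h + 1) = Real.exp (-Real.log ((h + 1) / h)) := by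
    rw [Real.exp_neg, Real.exp_log (by positivity), inv_div]
  rw [e]
  constructor
  · refine le_trans ?_ hb.1
    rw [e1, ← Real.exp_add]
    apply Real.exp_le_exp.2
    linarith
  · refine le_trans hb.2 ?_
    rw [e1, ← Real.exp_add]
    apply Real.exp_le_exp.2
    linarith

/-- `pc / (1 - pc) ≤ (1 + δ) / h` -/
lemma ratio_le {p h τ δ M : ℝ} (hh : 0 < h) (hM : h + 1 ≤ M)
    (hlo : h / (h + 1) * Real.exp (-τ) ≤ 1 - p) (hτ : 0 ≤ τ) (hδ : M * (Real.exp τ - 1) ≤ δ) :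
    p / (1 - p) ≤ (1 + δ) / h := by
  have h1 : 0 < h / (h + 1) * Real.exp (-τ) := by positivity
  have h2 : 0 < 1 - p := lt_of_lt_of_le h1 hlo
  have h3 : p / (1 - p) = (1 - p)⁻¹ - 1 := by
    field_simp
    ring
  have h4 : (1 - p)⁻¹ ≤ (h + 1) / h * Real.exp τ := by
    rw [inv_le_comm₀ h2 (by positivity), mul_inv, inv_div, ← Real.exp_neg]
    exact hlo
  have h5 : 0 ≤ Real.exp τ - 1 := by
    have := Real.add_one_le_exp τ
    linarith
  rw [h3, le_div_iff₀ hh]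
  have h6 : (h + 1) / h * Real.exp τ * h = (h + 1) * Real.exp τ := by field_simp
  have h7 := mul_le_mul_of_nonneg_right h4 hh.le
  rw [h6] at h7
  have h8 : (h + 1) * (Real.exp τ - 1) ≤ δ := le_trans (mul_le_mul_of_nonneg_right hM h5) hδ
  nlinarith

/-- the product over the cells -/
lemma prod_cells (ρ J : ℕ) (hρ : 2 ≤ ρ) (hJ : 1 ≤ J) :
    ∏ c : Fin ((ρ - 1) * J), (((J + c : ℕ) : ℝ) / (((J + c : ℕ) : ℝ) + 1)) = 1 / ρ := by
  have h1 : ∀ m : ℕ, ∏ c ∈ range m, (((J + c : ℕ) : ℝ) / (((J + c : ℕ) : ℝ) + 1)) = (J : ℝ) / ((J + m : ℕ) : ℝ) := by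
    intro m
    have hJ0 : (0 : ℝ) < J := by exact_mod_cast hJ
    induction m with
    | zero => simp [div_self hJ0.ne']
    | succ m ih =>
      rw [Finset.prod_range_succ, ih]
      push_cast
      field_simp
      ring
  rw [Finset.prod_fin_eq_prod_range]
  have h2 : ∀ c ∈ range ((ρ - 1) * J), (if h : c < (ρ - 1) * J then
      (((J + ((⟨c, h⟩ : Fin ((ρ - 1) * J)) : ℕ) : ℕ) : ℝ) /
        (((J + ((⟨c, h⟩ : Fin ((ρ - 1) * J)) : ℕ) : ℕ) : ℝ) + 1)) else 1) =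
      (((J + c : ℕ) : ℝ) / (((J + c : ℕ) : ℝ) + 1)) := by
    intro c hc
    rw [dif_pos (Finset.mem_range.1 hc)]
  rw [Finset.prod_congr rfl h2, h1, card_nat hρ]
  have hJ0 : (0 : ℝ) < J := by exact_mod_cast hJ
  have hρ0 : (0 : ℝ) < ρ := by
    have : 0 < ρ := by omega
    exact_mod_cast this
  push_cast
  field_simp

/-- `P ≥ ρ e^(-mτ)` -/
lemma prod_inv_ge (ρ J : ℕ) (hρ : 2 ≤ ρ) (hJ : 1 ≤ J) (p : Fin ((ρ - 1) * J) → ℝ) (τ : ℝ)
    (hlo : ∀ c, 0 < 1 - p c)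
    (hup : ∀ c, 1 - p c ≤ ((J + c : ℕ) : ℝ) / (((J + c : ℕ) : ℝ) + 1) * Real.exp τ) :
    (ρ : ℝ) * Real.exp (-(((ρ - 1) * J : ℕ) * τ)) ≤ (∏ c, (1 - p c))⁻¹ := by
  have h1 : ∏ c, (1 - p c) ≤ 1 / ρ * Real.exp (((ρ - 1) * J : ℕ) * τ) := by
    calc ∏ c, (1 - p c) ≤ ∏ c : Fin ((ρ - 1) * J), (((J + c : ℕ) : ℝ) / (((J + c : ℕ) : ℝ) + 1) * Real.exp τ) :=
          Finset.prod_le_prod (fun c _ => (hlo c).le) fun c _ => hup c
      _ = 1 / ρ * Real.exp (((ρ - 1) * J : ℕ) * τ) := by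
          rw [Finset.prod_mul_distrib, prod_cells ρ J hρ hJ, Finset.prod_const, Finset.card_univ, Fintype.card_fin,
            ← Real.exp_nat_mul]
  have hρ0 : (0 : ℝ) < ρ := by
    have : 0 < ρ := by omega
    exact_mod_cast this
  have h2 : 0 < ∏ c, (1 - p c) := Finset.prod_pos fun c _ => hlo c
  rw [le_inv_comm₀ (by positivity) h2, mul_inv, ← Real.exp_neg, neg_neg, ← one_div]
  exact h1

/-- the embedding of the cells -/
def emb (J m : ℕ) : Fin m ↪ ℕ := ⟨fun c => J + c, fun a b h => by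
  apply Fin.ext
  simp only at h
  omega⟩

lemma emb_apply (J m : ℕ) (c : Fin m) : emb J m c = J + c := rfl

/-- the constant `D` -/
lemma sum_cells_le (ρ J : ℕ) (hρ : 2 ≤ ρ) (hJ : 1 ≤ J) (x : Fin ((ρ - 1) * J) → ℝ) (δ : ℝ) (hδ : 0 ≤ δ)
    (h0 : ∀ c, 0 ≤ x c) (hx : ∀ c, x c ≤ (1 + δ) / ((J + c : ℕ) : ℝ)) :
    ∑ A ∈ univ.erase (∅ : Finset (Fin ((ρ - 1) * J))), (∏ c ∈ A, x c) / (sz (fun c => J + (c : ℕ)) A : ℝ) ≤
      (1 + δ) ^ ((ρ - 1) * J) *
        ∑ A ∈ (Ico J (ρ * J)).powerset.erase ∅, (∏ h ∈ A, 1 / (h : ℝ)) / (∑ h ∈ A, (h : ℝ)) := by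
  classical
  have h1 : ∑ A ∈ univ.erase (∅ : Finset (Fin ((ρ - 1) * J))),
      (∏ h ∈ A.map (emb J _), 1 / (h : ℝ)) / (∑ h ∈ A.map (emb J _), (h : ℝ)) =
      ∑ A ∈ (Ico J (ρ * J)).powerset.erase ∅, (∏ h ∈ A, 1 / (h : ℝ)) / (∑ h ∈ A, (h : ℝ)) := by
    refine Finset.sum_bij (fun A _ => A.map (emb J _)) ?_ ?_ ?_ ?_
    · intro A hA
      rw [Finset.mem_erase] at hA
      rw [Finset.mem_erase, Finset.mem_powerset]
      refine ⟨?_, ?_⟩
      · rw [Ne, Finset.map_eq_empty]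
        exact hA.1
      · intro h hh
        rw [Finset.mem_map] at hh
        obtain ⟨c, _, rfl⟩ := hh
        rw [Finset.mem_Ico, emb_apply]
        have := c.2
        have h7 := card_nat (J := J) hρ
        omega
    · intro A _ A' _ h
      exact Finset.map_injective _ h
    · intro A' hA'
      rw [Finset.mem_erase, Finset.mem_powerset] at hA'
      refine ⟨univ.filter (fun c => emb J _ c ∈ A'), ?_, ?_⟩
      · rw [Finset.mem_erase]
        refine ⟨?_, Finset.mem_univ _⟩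
        obtain ⟨h, hh⟩ := Finset.nonempty_iff_ne_empty.2 hA'.1
        have h2 := Finset.mem_Ico.1 (hA'.2 hh)
        have h7 := card_nat (J := J) hρ
        have h3 : h - J < (ρ - 1) * J := by omega
        apply Finset.nonempty_iff_ne_empty.1
        refine ⟨⟨h - J, h3⟩, ?_⟩
        rw [Finset.mem_filter, emb_apply]
        refine ⟨Finset.mem_univ _, ?_⟩
        simp only
        have : J + (h - J) = h := by omega
        rw [this]
        exact hh
      · ext h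
        rw [Finset.mem_map]
        constructor
        · rintro ⟨c, hc, rfl⟩
          exact (Finset.mem_filter.1 hc).2
        · intro hh
          have h2 := Finset.mem_Ico.1 (hA'.2 hh)
          have h7 := card_nat (J := J) hρ
          have h3 : h - J < (ρ - 1) * J := by omega
          have h4 : emb J ((ρ - 1) * J) ⟨h - J, h3⟩ = h := by
            rw [emb_apply]
            simp only
            omega
          exact ⟨⟨h - J, h3⟩, Finset.mem_filter.2 ⟨Finset.mem_univ _, by rw [h4]; exact hh⟩, h4⟩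
    · intro A _; rfl
  rw [← h1, Finset.mul_sum]
  refine Finset.sum_le_sum fun A hA => ?_
  rw [Finset.mem_erase] at hA
  obtain ⟨c0, hc0⟩ := Finset.nonempty_iff_ne_empty.2 hA.1
  rw [Finset.prod_map, Finset.sum_map]
  have hsz : (sz (fun c => J + (c : ℕ)) A : ℝ) = ∑ c ∈ A, ((emb J ((ρ - 1) * J) c : ℕ) : ℝ) := by
    unfold sz
    rw [Nat.cast_sum]
    rfl
  rw [hsz]
  have hpos : 0 < ∑ c ∈ A, ((emb J ((ρ - 1) * J) c : ℕ) : ℝ) := by
    refine Finset.sum_pos (fun c _ => ?_) ⟨c0, hc0⟩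
    rw [emb_apply]
    have : 0 < J + (c : ℕ) := by omega
    exact_mod_cast this
  rw [← mul_div_assoc]
  apply div_le_div_of_nonneg_right _ hpos.le
  calc ∏ c ∈ A, x c ≤ ∏ c ∈ A, ((1 + δ) * (1 / ((emb J ((ρ - 1) * J) c : ℕ) : ℝ))) := by
        refine Finset.prod_le_prod (fun c _ => h0 c) fun c _ => ?_
        refine (hx c).trans (le_of_eq ?_)
        rw [emb_apply]
        ring
    _ = (1 + δ) ^ A.card * ∏ c ∈ A, (1 / ((emb J ((ρ - 1) * J) c : ℕ) : ℝ)) := by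
        rw [Finset.prod_mul_distrib, Finset.prod_const]
    _ ≤ (1 + δ) ^ ((ρ - 1) * J) * ∏ c ∈ A, (1 / ((emb J ((ρ - 1) * J) c : ℕ) : ℝ)) := by
        refine mul_le_mul_of_nonneg_right ?_ (Finset.prod_nonneg fun c _ => by positivity)
        refine pow_le_pow_right₀ (by linarith) ?_
        have := Finset.card_le_univ A
        rwa [Fintype.card_fin] at this

end Pool.Agent.U136.NWS
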